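import Pool.Agent.Helper26.Loc.Surv
import Pool.Agent.Helper26.Loc.Lll

namespace Pool.Agent.Helper26.Loc

open Finset Real
open Pool.Agent.Helper26.Gsw (dev dev_line)

section nbhd

variable {V J : Type*} [Fintype V] [DecidableEq V] [Fintype J]

open Classical in
/-- one-step neighbourhood: add all columns sharing a row -/
noncomputable def nb (c : J → V → ℝ) (S : Finset V) : Finset V :=
  univ.filter fun i' => i' ∈ S ∨ ∃ i ∈ S, ∃ j, c j i ≠ 0 ∧ c j i' ≠ 0

variable {c : J → V → ℝ}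

theorem mem_nb {S : Finset V} {i' : V} :
    i' ∈ nb c S ↔ i' ∈ S ∨ ∃ i ∈ S, ∃ j, c j i ≠ 0 ∧ c j i' ≠ 0 := by
  simp [nb]

theorem subset_nb (S : Finset V) : S ⊆ nb c S := fun _ h => mem_nb.2 (Or.inl h)

theorem nb_mono {S S' : Finset V} (h : S ⊆ S') : nb c S ⊆ nb c S' := by
  intro i hi
  rw [mem_nb] at hi ⊢
  rcases hi with hi | ⟨i0, h0, j, h1, h2⟩
  · exact Or.inl (h hi)
  · exact Or.inr ⟨i0, h h0, j, h1, h2⟩

theorem nbi_mono {S S' : Finset V} (h : S ⊆ S') (k : ℕ) : (nb c)^[k] S ⊆ (nb c)^[k] S' := by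
  induction k with
  | zero => exact h
  | succ k ih =>
    rw [Function.iterate_succ_apply', Function.iterate_succ_apply']
    exact nb_mono ih

theorem subset_nbi (S : Finset V) (k : ℕ) : S ⊆ (nb c)^[k] S := by
  induction k with
  | zero => exact subset_rfl
  | succ k ih =>
    rw [Function.iterate_succ_apply']
    exact ih.trans (subset_nb _)

theorem nbi_le (S : Finset V) {k l : ℕ} (h : k ≤ l) : (nb c)^[k] S ⊆ (nb c)^[l] S := by
  obtain ⟨m, rfl⟩ := Nat.exists_eq_add_of_le h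
  rw [add_comm, Function.iterate_add_apply]
  exact subset_nbi _ _

theorem nbi_back (k : ℕ) : ∀ (T : Finset V) (v : V), v ∈ (nb c)^[k] T →
    ∃ i ∈ T, i ∈ (nb c)^[k] {v} := by
  induction k with
  | zero => intro T v hv; exact ⟨v, hv, by simp⟩
  | succ k ih =>
    intro T v hv
    rw [Function.iterate_succ_apply] at hv
    obtain ⟨w, hw, hwv⟩ := ih _ v hv
    rw [mem_nb] at hw
    rcases hw with hw | ⟨i, hi, j, h1, h2⟩
    · exact ⟨w, hw, by rw [Function.iterate_succ_apply']; exact subset_nb _ hwv⟩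
    · refine ⟨i, hi, ?_⟩
      rw [Function.iterate_succ_apply', mem_nb]
      exact Or.inr ⟨w, hwv, j, h2, h1⟩

theorem nbi_overlap {k : ℕ} {S S' : Finset V}
    (h : ¬ Disjoint ((nb c)^[k] S) ((nb c)^[k] S')) : ∃ i ∈ S', i ∈ (nb c)^[2 * k] S := by
  rw [Finset.not_disjoint_iff] at h
  obtain ⟨v, h1, h2⟩ := h
  obtain ⟨i, hi, hiv⟩ := nbi_back k S' v h2
  refine ⟨i, hi, ?_⟩
  rw [two_mul, Function.iterate_add_apply]
  exact nbi_mono (Finset.singleton_subset_iff.2 h1) k hiv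

theorem card_nb_le {D : ℕ} (hrow : ∀ j, #(univ.filter fun i => c j i ≠ 0) ≤ D)
    (hcol : ∀ i, #(univ.filter fun j => c j i ≠ 0) ≤ D) (S : Finset V) :
    #(nb c S) ≤ (1 + D ^ 2) * #S := by
  classical
  have hsub : nb c S ⊆ S ∪ S.biUnion (fun i => (univ.filter fun j => c j i ≠ 0).biUnion
      (fun j => univ.filter fun i' => c j i' ≠ 0)) := by
    intro i' hi'
    rw [mem_nb] at hi'
    rw [Finset.mem_union]
    rcases hi' with h | ⟨i, hi, j, h1, h2⟩
    · exact Or.inl h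
    · right
      rw [Finset.mem_biUnion]
      refine ⟨i, hi, ?_⟩
      rw [Finset.mem_biUnion]
      exact ⟨j, by simpa using h1, by simpa using h2⟩
  calc #(nb c S) ≤ _ := Finset.card_le_card hsub
    _ ≤ #S + #(S.biUnion (fun i => (univ.filter fun j => c j i ≠ 0).biUnion
          (fun j => univ.filter fun i' => c j i' ≠ 0))) := Finset.card_union_le _ _
    _ ≤ #S + ∑ _i ∈ S, D * D := by
        apply Nat.add_le_add_left
        refine Finset.card_biUnion_le.trans (Finset.sum_le_sum fun i _ => ?_)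
        refine Finset.card_biUnion_le.trans ?_
        calc _ ≤ ∑ _j ∈ univ.filter (fun j => c j i ≠ 0), D := Finset.sum_le_sum fun j _ => hrow j
          _ = #(univ.filter fun j => c j i ≠ 0) * D := by simp
          _ ≤ D * D := Nat.mul_le_mul_right _ (hcol i)
    _ = _ := by
        rw [Finset.sum_const, smul_eq_mul]; ring

theorem card_nbi_le {D : ℕ} (hrow : ∀ j, #(univ.filter fun i => c j i ≠ 0) ≤ D)
    (hcol : ∀ i, #(univ.filter fun j => c j i ≠ 0) ≤ D) (S : Finset V) (k : ℕ) :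
    #((nb c)^[k] S) ≤ (1 + D ^ 2) ^ k * #S := by
  induction k with
  | zero => simp
  | succ k ih =>
    rw [Function.iterate_succ_apply']
    calc _ ≤ (1 + D ^ 2) * #((nb c)^[k] S) := card_nb_le hrow hcol _
      _ ≤ (1 + D ^ 2) * ((1 + D ^ 2) ^ k * #S) := Nat.mul_le_mul_left _ ih
      _ = _ := by ring

variable {z : V → ℝ}

theorem dev_congr {S : Finset V} {x x' : V → ℝ} (h : ∀ i ∈ nb c S, x i = x' i) {i : V}
    (hi : i ∈ S) {j : J} (hj : c j i ≠ 0) : dev c z j x = dev c z j x' := by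
  unfold dev
  refine Finset.sum_congr rfl fun i' _ => ?_
  by_cases h0 : c j i' = 0
  · rw [h0, zero_mul, zero_mul]
  · rw [h i' (mem_nb.2 (Or.inr ⟨i, hi, j, hj, h0⟩))]

theorem CA_congr {A A' S : Finset V} (hA : ∀ i ∈ nb c S, (i ∈ A ↔ i ∈ A')) {f f' : V → ℝ}
    (hf : ∀ i ∈ nb c S, f i = f' i) {i : V} (hi : i ∈ S) {j : J} (hj : c j i ≠ 0) :
    CA c A f j = CA c A' f' j := by
  have h1 : ∀ (B : Finset V) (g : V → ℝ), CA c B g j = ∑ i, if i ∈ B then c j i * g i else 0 := by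
    intro B g
    rw [CA_apply, Finset.sum_ite_mem, Finset.univ_inter]
  rw [h1, h1]
  refine Finset.sum_congr rfl fun i' _ => ?_
  by_cases h0 : c j i' = 0
  · simp [h0]
  · have hm : i' ∈ nb c S := mem_nb.2 (Or.inr ⟨i, hi, j, hj, h0⟩)
    rw [hf i' hm]
    by_cases hA1 : i' ∈ A
    · rw [if_pos hA1, if_pos ((hA i' hm).1 hA1)]
    · rw [if_neg hA1, if_neg (fun h => hA1 ((hA i' hm).2 h))]

theorem MM_congr {D : ℕ} {A A' S : Finset V} (hA : ∀ i ∈ nb c S, (i ∈ A ↔ i ∈ A'))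
    {f f' : V → ℝ} (hf : ∀ i ∈ nb c S, f i = f' i) {i : V} (hi : i ∈ S) :
    MM c D A f i = MM c D A' f' i := by
  rw [MM_apply, MM_apply, CT_apply, CT_apply]
  have hm : i ∈ nb c S := subset_nb S hi
  have h1 : ∑ j, c j i * CA c A f j = ∑ j, c j i * CA c A' f' j := by
    refine Finset.sum_congr rfl fun j _ => ?_
    by_cases h0 : c j i = 0
    · rw [h0, zero_mul, zero_mul]
    · rw [CA_congr hA hf hi h0]
  rw [h1, hf i hm]
  by_cases hA1 : i ∈ A
  · rw [if_pos hA1, if_pos ((hA i hm).1 hA1), if_pos hA1, if_pos ((hA i hm).1 hA1)]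
  · have hA2 := fun h => hA1 ((hA i hm).2 h)
    rw [if_neg hA1, if_neg hA2, if_neg hA1, if_neg hA2]

theorem MMpow_congr {D : ℕ} {A A' : Finset V} (k : ℕ) :
    ∀ (S : Finset V), (∀ i ∈ (nb c)^[k] S, (i ∈ A ↔ i ∈ A')) →
    ∀ {f f' : V → ℝ}, (∀ i ∈ (nb c)^[k] S, f i = f' i) → ∀ i ∈ S,
    (MM c D A ^ k) f i = (MM c D A' ^ k) f' i := by
  induction k with
  | zero => intro S _ f f' hf i hi; simpa using hf i hi
  | succ k ih =>
    intro S hA f f' hf i hi
    rw [pow_succ', pow_succ', Module.End.mul_apply, Module.End.mul_apply]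
    rw [Function.iterate_succ_apply] at hA hf
    apply MM_congr (S := S)
    · intro i' hi'
      exact hA i' (subset_nbi _ _ hi')
    · intro i' hi'
      exact ih (nb c S) hA hf i' hi'
    · exact hi

end nbhd

namespace Par

variable {V J : Type*} [Fintype V] [DecidableEq V] [Fintype J] {P : Par V J}

theorem alive_congr {S : Finset V} {x x' : V → ℝ} (h : ∀ i ∈ nb P.c S, x i = x' i) {i : V}
    (hi : i ∈ S) : i ∈ P.alive x ↔ i ∈ P.alive x' := by
  rw [mem_alive, mem_alive, h i (subset_nb S hi)]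
  have : ∀ j, P.c j i ≠ 0 → dev P.c P.z j x = dev P.c P.z j x' := fun j hj => dev_congr h hi hj
  constructor
  · rintro ⟨h1, h2⟩
    exact ⟨h1, fun j hj => by rw [← this j hj]; exact h2 j hj⟩
  · rintro ⟨h1, h2⟩
    exact ⟨h1, fun j hj => by rw [this j hj]; exact h2 j hj⟩

theorem step_congr {S : Finset V} {x x' ξ ξ' : V → ℝ}
    (h : ∀ i ∈ (nb P.c)^[P.d + 1] S, x i = x' i) (hξ : ∀ i ∈ (nb P.c)^[P.d] S, ξ i = ξ' i)
    {i : V} (hi : i ∈ S) : P.step x ξ i = P.step x' ξ' i := by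
  unfold step mv
  rw [Function.iterate_succ_apply'] at h
  have h1 : ∀ i' ∈ (nb P.c)^[P.d] S, (i' ∈ P.alive x ↔ i' ∈ P.alive x') :=
    fun i' hi' => alive_congr h hi'
  rw [MMpow_congr P.d S h1 hξ i hi, h i (subset_nb _ (subset_nbi S _ hi))]

/-- locality of the walk -/
theorem xs_congr (n : ℕ) : ∀ (S : Finset V) {ω ω' : V → Fin P.N → Bool},
    (∀ v ∈ (nb P.c)^[n * (P.d + 1)] S, ω v = ω' v) → ∀ i ∈ S, P.xs ω n i = P.xs ω' n i := by
  induction n with
  | zero => intro S ω ω' _ i _; rfl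
  | succ n ih =>
    intro S ω ω' h i hi
    apply step_congr (S := S)
    · apply ih
      intro v hv
      apply h
      rw [Nat.succ_mul, Function.iterate_add_apply]
      exact hv
    · intro i' hi'
      unfold bit
      rw [h i']
      exact nbi_le S (by rw [Nat.succ_mul]; omega) hi'
    · exact hi

end Par

end Pool.Agent.Helper26.Loc
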