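import Pool.Agent.Helper26.Loc.Local
import Pool.Agent.Helper26.GswChain

namespace Pool.Agent.Helper26.Loc

open Finset Real
open Pool.Agent.Helper26.Gsw (dev chains card_chains mem_chains cl mem_cl long_chain)

section causes

variable {V J : Type*} [Fintype V] [DecidableEq V] [Fintype J]

/-- the cause `a` touches the row `l` -/
def tq (c : J → V → ℝ) : J ⊕ V → J → Prop
  | Sum.inl j, l => ∃ i, c j i ≠ 0 ∧ c l i ≠ 0
  | Sum.inr i, l => c l i ≠ 0

/-- two causes touch a common row -/
def Rq (c : J → V → ℝ) (a b : J ⊕ V) : Prop := ∃ l, tq c a l ∧ tq c b l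

theorem Rq.symm {c : J → V → ℝ} {a b : J ⊕ V} (h : Rq c a b) : Rq c b a := by
  obtain ⟨l, h1, h2⟩ := h; exact ⟨l, h2, h1⟩

open Classical in
/-- support of a cause -/
noncomputable def su (c : J → V → ℝ) : J ⊕ V → Finset V
  | Sum.inl j => univ.filter fun i => c j i ≠ 0
  | Sum.inr i => {i}

variable {c : J → V → ℝ}

theorem tq_row {a : J ⊕ V} {l : J} (h : tq c a l) {i' : V} (hi' : c l i' ≠ 0) :
    i' ∈ nb c (su c a) := by
  rw [mem_nb]
  cases a with
  | inl j =>
    obtain ⟨i, h1, h2⟩ := h
    exact Or.inr ⟨i, by simpa [su] using h1, l, h2, hi'⟩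
  | inr i =>
    exact Or.inr ⟨i, by simp [su], l, h, hi'⟩

theorem tq_su {b : J ⊕ V} {l : J} (h : tq c b l) {S : Finset V} (hS : ∀ i, c l i ≠ 0 → i ∈ S) :
    su c b ⊆ nb c S := by
  intro i hi
  cases b with
  | inl j =>
    obtain ⟨i0, h1, h2⟩ := h
    have hi : c j i ≠ 0 := by simpa [su] using hi
    exact mem_nb.2 (Or.inr ⟨i0, hS i0 h2, j, h1, hi⟩)
  | inr i0 =>
    have hi : i = i0 := by simpa [su] using hi
    rw [hi]
    exact subset_nb _ (hS i0 h)

theorem Rq_su {a b : J ⊕ V} (h : Rq c a b) : su c b ⊆ (nb c)^[2] (su c a) := by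
  obtain ⟨l, h1, h2⟩ := h
  exact tq_su h2 fun i hi => tq_row h1 hi

open Classical in
theorem card_Rq {D : ℕ} (hrow : ∀ j, #(univ.filter fun i => c j i ≠ 0) ≤ D)
    (hcol : ∀ i, #(univ.filter fun j => c j i ≠ 0) ≤ D)
    (hD : ∀ j, #(univ.filter fun l => ∃ i, c j i ≠ 0 ∧ c l i ≠ 0) ≤ D) (a : J ⊕ V) :
    #(univ.filter (Rq c a)) ≤ 2 * D ^ 2 := by
  have h1 : #(univ.filter fun l => tq c a l) ≤ D := by
    cases a with
    | inl j =>
      refine le_trans (Finset.card_le_card fun l hl => ?_) (hD j)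
      exact Finset.mem_filter.2 ⟨Finset.mem_univ _, (Finset.mem_filter.1 hl).2⟩
    | inr i =>
      refine le_trans (Finset.card_le_card fun l hl => ?_) (hcol i)
      exact Finset.mem_filter.2 ⟨Finset.mem_univ _, (Finset.mem_filter.1 hl).2⟩
  have h2 : ∀ l, #(univ.filter fun b : J ⊕ V => tq c b l) ≤ 2 * D := by
    intro l
    have hsub : (univ.filter fun b : J ⊕ V => tq c b l) ⊆
        ((univ.filter fun j => ∃ i, c l i ≠ 0 ∧ c j i ≠ 0).map Function.Embedding.inl) ∪
        ((univ.filter fun i => c l i ≠ 0).map Function.Embedding.inr) := by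
      intro b hb
      have hb := (Finset.mem_filter.1 hb).2
      cases b with
      | inl j =>
        obtain ⟨i, h1, h2⟩ := hb
        apply Finset.mem_union_left
        simp only [Finset.mem_map, Finset.mem_filter, Finset.mem_univ, true_and,
          Function.Embedding.inl_apply, Sum.inl.injEq, exists_eq_right]
        exact ⟨i, h2, h1⟩
      | inr i =>
        apply Finset.mem_union_right
        simp only [Finset.mem_map, Finset.mem_filter, Finset.mem_univ, true_and,
          Function.Embedding.inr_apply, Sum.inr.injEq, exists_eq_right]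
        exact hb
    refine (Finset.card_le_card hsub).trans ((Finset.card_union_le _ _).trans ?_)
    rw [Finset.card_map, Finset.card_map, two_mul]
    exact Nat.add_le_add (hD l) (hrow l)
  have hsub : univ.filter (Rq c a) ⊆ (univ.filter fun l => tq c a l).biUnion
      (fun l => univ.filter fun b : J ⊕ V => tq c b l) := by
    intro b hb
    obtain ⟨l, h3, h4⟩ := (Finset.mem_filter.1 hb).2
    rw [Finset.mem_biUnion]
    exact ⟨l, by simpa using h3, by simpa using h4⟩
  calc _ ≤ _ := Finset.card_le_card hsub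
    _ ≤ ∑ l ∈ univ.filter (fun l => tq c a l), #(univ.filter fun b : J ⊕ V => tq c b l) :=
        Finset.card_biUnion_le
    _ ≤ ∑ _l ∈ univ.filter (fun l => tq c a l), 2 * D := Finset.sum_le_sum fun l _ => h2 l
    _ = #(univ.filter fun l => tq c a l) * (2 * D) := by simp
    _ ≤ D * (2 * D) := Nat.mul_le_mul_right _ h1
    _ = _ := by ring

theorem chains_su (n : ℕ) : ∀ (a : J ⊕ V), ∀ l ∈ chains (Rq c) n a, ∀ b ∈ l,
    su c b ⊆ (nb c)^[2 * n] (su c a) := by
  induction n with
  | zero =>
    intro a l hl b hb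
    have : l = [a] := by simpa [chains] using hl
    rw [this, List.mem_singleton] at hb
    rw [hb]
    exact subset_rfl
  | succ n ih =>
    intro a l hl b hb
    simp only [chains, Finset.mem_biUnion, Finset.mem_filter, Finset.mem_univ, true_and,
      Finset.mem_image] at hl
    obtain ⟨a', ha', l', hl', rfl⟩ := hl
    rcases List.mem_cons.1 hb with hb | hb
    · rw [hb]; exact subset_nbi _ _
    · refine (ih a' l' hl' b hb).trans ?_
      rw [show 2 * (n + 1) = 2 * n + 2 by ring, Function.iterate_add_apply]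
      exact nbi_mono (Rq_su ha') _

end causes

namespace Par

variable {V J : Type*} [Fintype V] [DecidableEq V] [Fintype J] {P : Par V J}

/-- bad causes -/
def bad (P : Par V J) (ω : V → Fin P.N → Bool) : J ⊕ V → Prop
  | Sum.inl j => P.L ≤ |dev P.c P.z j (P.xs ω P.N)|
  | Sum.inr i => i ∈ P.alive (P.xs ω P.N)

theorem bad_congr (a : J ⊕ V) {ω ω' : V → Fin P.N → Bool}
    (h : ∀ v ∈ (nb P.c)^[P.N * (P.d + 1) + 1] (su P.c a), ω v = ω' v) :
    P.bad ω a ↔ P.bad ω' a := by
  rw [Function.iterate_succ_apply] at h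
  have hx := P.xs_congr P.N (nb P.c (su P.c a)) h
  cases a with
  | inl j =>
    unfold bad
    have : dev P.c P.z j (P.xs ω P.N) = dev P.c P.z j (P.xs ω' P.N) := by
      unfold dev
      refine Finset.sum_congr rfl fun i _ => ?_
      by_cases h0 : P.c j i = 0
      · rw [h0, zero_mul, zero_mul]
      · rw [hx i (subset_nb _ (by simpa [su] using h0))]
    simp only [this]
  | inr i =>
    unfold bad
    exact alive_congr hx (by simp [su])

variable (hP : P.Ok)
include hP

/-- hitting probability of the rows -/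
theorem hit_prob (T : Finset J) (hN : 0 < P.N) :
    avg (fun ω : V → Fin P.N → Bool => ind (∀ j ∈ T, P.L ≤ |dev P.c P.z j (P.xs ω P.N)|))
      ≤ (2 * exp (-(P.L ^ 2 / (2 * (P.N * P.γ ^ 2))))) ^ #T := by
  classical
  set τ : ℝ := P.N * P.γ ^ 2 with hτ
  have hγ := hP.hγ
  have hNr : (0 : ℝ) < P.N := by exact_mod_cast hN
  have hτ0 : 0 < τ := by positivity
  set lam : ℝ := P.L / τ with hlam
  have hlam0 : 0 < lam := div_pos hP.hL hτ0
  set dv : (V → Fin P.N → Bool) → J → ℝ := fun ω j => dev P.c P.z j (P.xs ω P.N) with hdv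
  set sg : Finset J → J → ℝ := fun T1 j => if j ∈ T1 then lam else if j ∈ T then -lam else 0
    with hsg
  have hpt : ∀ ω : V → Fin P.N → Bool, ind (∀ j ∈ T, P.L ≤ |dv ω j|)
      ≤ ∑ T1 ∈ T.powerset, exp (-(lam * P.L * #T)) * exp (∑ j, sg T1 j * dv ω j) := by
    intro ω
    have e0 : ∏ j ∈ T, (exp (lam * dv ω j - lam * P.L) + exp (-(lam * dv ω j) - lam * P.L))
        = ∑ T1 ∈ T.powerset, exp (-(lam * P.L * #T)) * exp (∑ j, sg T1 j * dv ω j) := by
      rw [Finset.prod_add]
      refine Finset.sum_congr rfl fun T1 hT1 => ?_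
      have hsub : T1 ⊆ T := Finset.mem_powerset.1 hT1
      rw [← exp_sum, ← exp_sum, ← exp_add, ← exp_add]
      congr 1
      have e1 : ∑ j, sg T1 j * dv ω j
          = ∑ j ∈ T1, lam * dv ω j + ∑ j ∈ T \ T1, -(lam * dv ω j) := by
        have h1 : ∑ j, sg T1 j * dv ω j = ∑ j ∈ T, sg T1 j * dv ω j := by
          symm
          apply Finset.sum_subset (Finset.subset_univ T)
          intro j _ hj
          have : j ∉ T1 := fun h => hj (hsub h)
          simp [hsg, hj, this]
        rw [h1, ← Finset.sum_sdiff hsub, add_comm]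
        congr 1
        · refine Finset.sum_congr rfl fun j hj => ?_
          simp [hsg, hj]
        · refine Finset.sum_congr rfl fun j hj => ?_
          obtain ⟨h2, h3⟩ := Finset.mem_sdiff.1 hj
          simp [hsg, h2, h3]
      have e2 : (#T : ℝ) = #T1 + #(T \ T1) := by
        rw [Finset.card_sdiff_of_subset hsub]
        have := Finset.card_le_card hsub
        push_cast [Nat.cast_sub this]
        ring
      rw [e1, e2, Finset.sum_sub_distrib, Finset.sum_sub_distrib]
      simp only [Finset.sum_const, nsmul_eq_mul]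
      ring
    rw [← e0]
    by_cases h : ∀ j ∈ T, P.L ≤ |dv ω j|
    · rw [ind_true h]
      refine Finset.prod_induction _ (fun r => (1 : ℝ) ≤ r) (fun a b ha hb => ?_) le_rfl ?_
      · nlinarith
      · intro j hj
        have h1 := h j hj
        rcases le_total 0 (dv ω j) with h2 | h2
        · rw [abs_of_nonneg h2] at h1
          have : 1 ≤ exp (lam * dv ω j - lam * P.L) := one_le_exp (by nlinarith)
          linarith [exp_pos (-(lam * dv ω j) - lam * P.L)]
        · rw [abs_of_nonpos h2] at h1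
          have : 1 ≤ exp (-(lam * dv ω j) - lam * P.L) := one_le_exp (by nlinarith)
          linarith [exp_pos (lam * dv ω j - lam * P.L)]
    · rw [ind_false h]
      exact Finset.prod_nonneg fun j _ => by positivity
  have hsum : ∀ T1 ∈ T.powerset, ∑ j, sg T1 j ^ 2 = lam ^ 2 * #T := by
    intro T1 hT1
    have hsub : T1 ⊆ T := Finset.mem_powerset.1 hT1
    have h1 : ∑ j, sg T1 j ^ 2 = ∑ j ∈ T, lam ^ 2 := by
      rw [← Finset.sum_subset (Finset.subset_univ T)]
      · refine Finset.sum_congr rfl fun j hj => ?_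
        by_cases h2 : j ∈ T1
        · simp [hsg, h2]
        · simp [hsg, h2, hj]
      · intro j _ hj
        have : j ∉ T1 := fun h' => hj (hsub h')
        simp [hsg, hj, this]
    rw [h1]; simp [mul_comm]
  calc _ ≤ avg (fun ω : V → Fin P.N → Bool =>
        ∑ T1 ∈ T.powerset, exp (-(lam * P.L * #T)) * exp (∑ j, sg T1 j * dv ω j)) :=
        avg_mono hpt
    _ = ∑ T1 ∈ T.powerset, exp (-(lam * P.L * #T)) *
          avg (fun ω : V → Fin P.N → Bool => exp (∑ j, sg T1 j * dv ω j)) := by
        rw [avg_sum]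
        exact Finset.sum_congr rfl fun T1 _ => avg_mul_left _ _
    _ ≤ ∑ T1 ∈ T.powerset, exp (-(lam * P.L * #T)) * exp (τ * (lam ^ 2 * #T) / 2) := by
        refine Finset.sum_le_sum fun T1 hT1 => ?_
        apply mul_le_mul_of_nonneg_left _ (exp_pos _).le
        have := row_moment hP (sg T1) P.N le_rfl
        rw [hsum T1 hT1] at this
        exact this
    _ = (2 * exp (-(P.L ^ 2 / (2 * τ)))) ^ #T := by
        rw [Finset.sum_const, Finset.card_powerset, nsmul_eq_mul, ← exp_add, mul_pow,
          ← exp_nat_mul]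
        push_cast
        congr 2
        rw [hlam]
        field_simp
        ring

/-- joint probability of bad causes -/
theorem bad_prob {ρ : ℝ} (hρ0 : 0 ≤ ρ) (hρ1 : ρ ≤ 1) (hN : 0 < P.N)
    (h1 : 2 * exp (-(P.L ^ 2 / (2 * (P.N * P.γ ^ 2)))) ≤ ρ ^ 2)
    (h2 : exp (1 / 1024 - P.N * P.γ ^ 2 / 2 ^ 17) ≤ ρ ^ 2) (T : Finset (J ⊕ V)) :
    avg (fun ω : V → Fin P.N → Bool => ind (∀ a ∈ T, P.bad ω a)) ≤ ρ ^ #T := by
  classical
  set TJ : Finset J := univ.filter fun j => Sum.inl j ∈ T with hTJ
  set TV : Finset V := univ.filter fun i => Sum.inr i ∈ T with hTV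
  have hcard : #T = #TJ + #TV := by
    have : T = TJ.map Function.Embedding.inl ∪ TV.map Function.Embedding.inr := by
      ext a
      cases a with
      | inl j => simp [hTJ]
      | inr i => simp [hTV]
    rw [this, Finset.card_union_of_disjoint, Finset.card_map, Finset.card_map]
    rw [Finset.disjoint_left]
    intro a ha hb
    simp only [Finset.mem_map, Function.Embedding.inl_apply, Function.Embedding.inr_apply] at ha hb
    obtain ⟨j, _, rfl⟩ := ha
    obtain ⟨i, _, hi⟩ := hb
    exact absurd hi (by simp)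
  have hA : avg (fun ω : V → Fin P.N → Bool => ind (∀ a ∈ T, P.bad ω a))
      ≤ (ρ ^ 2) ^ #TJ := by
    refine (avg_mono (g := fun ω : V → Fin P.N → Bool =>
      ind (∀ j ∈ TJ, P.L ≤ |dev P.c P.z j (P.xs ω P.N)|)) fun ω => ?_).trans
      ((hit_prob hP TJ hN).trans (pow_le_pow_left₀ (by positivity) h1 _))
    apply ind_mono
    intro h j hj
    exact h (Sum.inl j) (Finset.mem_filter.1 hj).2
  have hB : avg (fun ω : V → Fin P.N → Bool => ind (∀ a ∈ T, P.bad ω a))
      ≤ (ρ ^ 2) ^ #TV := by
    refine (avg_mono (g := fun ω : V → Fin P.N → Bool =>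
      ind (TV ⊆ P.alive (P.xs ω P.N))) fun ω => ?_).trans
      ((surv_prob hP TV).trans (pow_le_pow_left₀ (exp_pos _).le h2 _))
    apply ind_mono
    intro h i hi
    exact h (Sum.inr i) (Finset.mem_filter.1 hi).2
  rw [← pow_mul] at hA hB
  rcases le_total #TJ #TV with h | h
  · exact hB.trans (pow_le_pow_of_le_one hρ0 hρ1 (by omega))
  · exact hA.trans (pow_le_pow_of_le_one hρ0 hρ1 (by omega))

end Par

end Pool.Agent.Helper26.Loc
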