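import Pool.Agent.Helper26.GswRec

namespace Pool.Agent.Helper26.Loc

open Finset Real
open Pool.Agent.Helper26.Gsw (dev dev_add eq_or_of_abs cl mem_cl cl_eq)

variable {V J Q : Type*} [Fintype V] [Fintype J] [Fintype Q]

open Classical in
/-- starting point for one cluster -/
noncomputable def ZZ (y : V → ℝ) (q : ∀ i, |y i| ≠ 1 → Q) (C : Finset Q) (i : V) : ℝ :=
  if h : |y i| = 1 then y i else if q i h ∈ C then y i else 1

theorem ZZ_of_eq {y : V → ℝ} {q : ∀ i, |y i| ≠ 1 → Q} {C : Finset Q} {i : V} (h : |y i| = 1) :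
    ZZ y q C i = y i := by simp [ZZ, h]

theorem ZZ_of_mem {y : V → ℝ} {q : ∀ i, |y i| ≠ 1 → Q} {C : Finset Q} {i : V} (h : |y i| ≠ 1)
    (hC : q i h ∈ C) : ZZ y q C i = y i := by simp [ZZ, h, hC]

theorem ZZ_of_not_mem {y : V → ℝ} {q : ∀ i, |y i| ≠ 1 → Q} {C : Finset Q} {i : V}
    (h : |y i| ≠ 1) (hC : q i h ∉ C) : ZZ y q C i = 1 := by simp [ZZ, h, hC]

theorem glue (c : J → V → ℝ) (y : V → ℝ) (q : ∀ i, |y i| ≠ 1 → Q)
    (r : Q → Q → Prop) (hrs : ∀ a b, r a b → r b a)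
    (hr : ∀ l i i' (hi : |y i| ≠ 1) (hi' : |y i'| ≠ 1), c l i ≠ 0 → c l i' ≠ 0 →
      r (q i hi) (q i' hi'))
    (K : ℕ) (hK : ∀ i hi, #(cl r (q i hi)) ≤ K) (B : ℝ) (hB0 : 0 ≤ B)
    (hB : ∀ C : Finset Q, #C ≤ K → ∃ χ : V → ℝ, (∀ i, χ i = 1 ∨ χ i = -1) ∧
      (∀ i, |ZZ y q C i| = 1 → χ i = ZZ y q C i) ∧ ∀ j, |dev c (ZZ y q C) j χ| ≤ B) :
    ∃ χ : V → ℝ, (∀ i, χ i = 1 ∨ χ i = -1) ∧ ∀ j, |dev c y j χ| ≤ B := by
  classical
  have hX : ∀ C : Finset Q, ∃ χ : V → ℝ, #C ≤ K → (∀ i, χ i = 1 ∨ χ i = -1) ∧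
      (∀ i, |ZZ y q C i| = 1 → χ i = ZZ y q C i) ∧ ∀ j, |dev c (ZZ y q C) j χ| ≤ B := by
    intro C
    by_cases hC : #C ≤ K
    · obtain ⟨χ, hχ⟩ := hB C hC
      exact ⟨χ, fun _ => hχ⟩
    · exact ⟨fun _ => 1, fun h => absurd h hC⟩
  choose X hX using hX
  have hself : ∀ j, j ∈ cl r j := fun j => mem_cl.2 Relation.ReflTransGen.refl
  set χ : V → ℝ := fun i => if h : |y i| = 1 then y i else X (cl r (q i h)) i with hχ
  have hχ1 : ∀ i, |y i| = 1 → χ i = y i := fun i h => by simp [hχ, h]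
  have hχ2 : ∀ i (h : |y i| ≠ 1), χ i = X (cl r (q i h)) i := fun i h => by simp [hχ, h]
  refine ⟨χ, fun i => ?_, fun l => ?_⟩
  · by_cases h : |y i| = 1
    · rw [hχ1 i h]; exact eq_or_of_abs h
    · rw [hχ2 i h]; exact (hX _ (hK i h)).1 i
  · by_cases hex : ∃ i, c l i ≠ 0 ∧ |y i| ≠ 1
    · obtain ⟨i0, hi0, hy0⟩ := hex
      set C := cl r (q i0 hy0) with hC
      obtain ⟨-, hX2, hX3⟩ := hX C (hK i0 hy0)
      have heq : dev c y l χ = dev c (ZZ y q C) l (X C) := by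
        refine Finset.sum_congr rfl fun i _ => ?_
        by_cases hci : c l i = 0
        · rw [hci, zero_mul, zero_mul]
        · congr 1
          by_cases h : |y i| = 1
          · have hZi : ZZ y q C i = y i := ZZ_of_eq h
            rw [hχ1 i h, hX2 i (by rw [hZi]; exact h), hZi]
          · have hrel : r (q i h) (q i0 hy0) := hr l i i0 h hy0 hci hi0
            have hcc : cl r (q i h) = C := cl_eq hrs hrel
            have hmem : q i h ∈ C := by rw [← hcc]; exact hself _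
            have hZi : ZZ y q C i = y i := ZZ_of_mem h hmem
            rw [hχ2 i h, hcc, hZi]
      rw [heq]
      exact hX3 l
    · push Not at hex
      have : dev c y l χ = 0 := by
        refine Finset.sum_eq_zero fun i _ => ?_
        by_cases hci : c l i = 0
        · rw [hci, zero_mul]
        · rw [hχ1 i (hex i hci), sub_self, mul_zero]
      rw [this, abs_zero]
      exact hB0

end Pool.Agent.Helper26.Loc
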