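import Pool.Agent.Helper26.GswRec

namespace Pool.Agent.Helper26.Loc

open Finset Real
open Pool.Agent.Helper26.Gsw (dev Feas Alive step_exists)

variable {V J : Type*} [Fintype V] [Fintype J]

open Classical in
/-- Exact preprocessing: a fractional point with the same row sums as `z` and few fractional
entries in every row. -/
theorem exists_pre (c : J → V → ℝ) {D : ℕ}
    (hD : ∀ j, #(univ.filter fun l => ∃ i, c j i ≠ 0 ∧ c l i ≠ 0) ≤ D)
    (z : V → ℝ) (hz : ∀ i, |z i| ≤ 1) :
    ∃ x : V → ℝ, (∀ i, |x i| ≤ 1) ∧ (∀ j, ∑ i, c j i * x i = ∑ i, c j i * z i) ∧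
      ∀ j, #(univ.filter fun i => c j i ≠ 0 ∧ |x i| < 1) ≤ D := by
  -- minimal number of fractional entries
  set S : Set ℕ := {n | ∃ x : V → ℝ, (∀ i, |x i| ≤ 1) ∧
    (∀ j, ∑ i, c j i * x i = ∑ i, c j i * z i) ∧
    #(univ.filter fun i => |x i| < 1) = n} with hS
  have hne : S.Nonempty := ⟨_, z, hz, fun j => rfl, rfl⟩
  obtain ⟨n, ⟨x, hx1, hx2, hx3⟩, hmin⟩ : ∃ n ∈ S, ∀ m ∈ S, n ≤ m :=
    ⟨sInf S, Nat.sInf_mem hne, fun m hm => Nat.sInf_le hm⟩
  refine ⟨x, hx1, hx2, fun j => ?_⟩
  by_contra hcon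
  push Not at hcon
  set F := univ.filter fun i => c j i ≠ 0 ∧ |x i| < 1 with hF
  set R := univ.filter fun l => ∃ i, c j i ≠ 0 ∧ c l i ≠ 0 with hR
  -- kernel vector
  let Φ : (F → ℝ) →ₗ[ℝ] (R → ℝ) :=
    { toFun := fun f l => ∑ i : F, f i * c l i
      map_add' := by
        intro f g; funext l
        simp only [Pi.add_apply, add_mul, Finset.sum_add_distrib]
      map_smul' := by
        intro a f; funext l
        simp only [Pi.smul_apply, smul_eq_mul, RingHom.id_apply, Finset.mul_sum, mul_assoc] }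
  have hker : LinearMap.ker Φ ≠ ⊥ := by
    apply LinearMap.ker_ne_bot_of_finrank_lt
    rw [Module.finrank_pi, Module.finrank_pi, Fintype.card_coe, Fintype.card_coe]
    exact lt_of_le_of_lt (hD j) hcon
  obtain ⟨f, hf, hf0⟩ := (Submodule.ne_bot_iff _).1 hker
  rw [LinearMap.mem_ker] at hf
  obtain ⟨p, hp⟩ : ∃ p, f p ≠ 0 := by
    by_contra h
    push Not at h
    exact hf0 (funext h)
  set u : V → ℝ := fun i => if h : i ∈ F then f ⟨i, h⟩ else 0 with hu
  have hu1 : ∀ i (h : i ∈ F), u i = f ⟨i, h⟩ := fun i h => by simp [hu, h]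
  have hu0 : ∀ i, i ∉ F → u i = 0 := fun i h => by simp [hu, h]
  have hup : u p ≠ 0 := by rw [hu1 p.1 p.2]; exact hp
  have hcu : ∀ l, ∑ i, c l i * u i = 0 := by
    intro l
    have h1 : ∑ i, c l i * u i = ∑ i ∈ F, c l i * u i := by
      symm
      apply Finset.sum_subset (Finset.subset_univ F)
      intro i _ hi
      rw [hu0 i hi, mul_zero]
    rw [h1]
    by_cases hl : l ∈ R
    · have h2 := congrFun hf ⟨l, hl⟩
      have h3 : Φ f ⟨l, hl⟩ = ∑ i : F, f i * c l i := rfl
      rw [h3] at h2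
      rw [← Finset.sum_coe_sort]
      simp only [Pi.zero_apply] at h2
      rw [← h2]
      refine Finset.sum_congr rfl fun i _ => ?_
      rw [hu1 i.1 i.2, mul_comm]
    · refine Finset.sum_eq_zero fun i hi => ?_
      have h2 : c l i = 0 := by
        by_contra h
        apply hl
        rw [hR, Finset.mem_filter]
        exact ⟨Finset.mem_univ _, i, (Finset.mem_filter.1 hi).2.1, h⟩
      rw [h2, zero_mul]
  -- move along u
  have hfe : Feas (J := Empty) (fun j _ => j.elim) (fun j => j.elim) x x :=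
    ⟨hx1, fun j => j.elim⟩
  have hal : ∀ i, Alive (J := Empty) (fun j _ => j.elim) (fun j => j.elim) x x i ↔ |x i| < 1 :=
    fun i => ⟨fun h => h.1, fun h => ⟨h, fun j => j.elim⟩⟩
  obtain ⟨d, hd0, hd1, i0, hi0, hi1⟩ := step_exists hfe (u := u) (fun i hi => by
    apply hu0
    intro h
    exact hi ((hal i).2 (Finset.mem_filter.1 h).2.2)) hup
  have hmem : #(univ.filter fun i => |x i + d * u i| < 1) ∈ S := by
    refine ⟨fun i => x i + d * u i, hd1.1, fun l => ?_, rfl⟩
    have h1 : ∑ i, c l i * (x i + d * u i) = ∑ i, c l i * x i + d * ∑ i, c l i * u i := by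
      rw [Finset.mul_sum, ← Finset.sum_add_distrib]
      exact Finset.sum_congr rfl fun i _ => by ring
    rw [h1, hx2, hcu, mul_zero, add_zero]
  have hlt : #(univ.filter fun i => |x i + d * u i| < 1) < n := by
    rw [← hx3]
    apply Finset.card_lt_card
    rw [Finset.ssubset_iff_of_subset]
    · refine ⟨i0, by simpa using (hal i0).1 hi0, ?_⟩
      intro h
      apply hi1
      exact ⟨(Finset.mem_filter.1 h).2, fun j => j.elim⟩
    · intro i hi
      rw [Finset.mem_filter] at hi ⊢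
      refine ⟨Finset.mem_univ _, ?_⟩
      by_cases h : i ∈ F
      · exact (Finset.mem_filter.1 h).2.2
      · have := hi.2
        rwa [hu0 i h, mul_zero, add_zero] at this
  exact absurd (hmin _ hmem) (not_le.2 hlt)

end Pool.Agent.Helper26.Loc
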