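import Mathlib

namespace Pool.Agent.Helper26.Loc

open Finset

variable {V J : Type*} [Fintype V] [DecidableEq V] [Fintype J]

/-- matrix restricted to the columns in `A` -/
def CA (c : J → V → ℝ) (A : Finset V) : (V → ℝ) →ₗ[ℝ] (J → ℝ) where
  toFun f j := ∑ i ∈ A, c j i * f i
  map_add' f g := by
    funext j; simp only [Pi.add_apply, mul_add, Finset.sum_add_distrib]
  map_smul' r f := by
    funext j
    simp only [Pi.smul_apply, smul_eq_mul, RingHom.id_apply, Finset.mul_sum]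
    exact Finset.sum_congr rfl fun i _ => by ring

/-- transposed matrix restricted to the columns in `A` -/
def CT (c : J → V → ℝ) (A : Finset V) : (J → ℝ) →ₗ[ℝ] (V → ℝ) where
  toFun g i := if i ∈ A then ∑ j, c j i * g j else 0
  map_add' f g := by
    funext i
    simp only [Pi.add_apply, mul_add, Finset.sum_add_distrib]
    split_ifs <;> simp
  map_smul' r f := by
    funext i
    simp only [Pi.smul_apply, smul_eq_mul, RingHom.id_apply]
    split_ifs
    · rw [Finset.mul_sum]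
      exact Finset.sum_congr rfl fun j _ => by ring
    · simp

/-- restriction to `A` -/
def RA (A : Finset V) : (V → ℝ) →ₗ[ℝ] (V → ℝ) where
  toFun f i := if i ∈ A then f i else 0
  map_add' f g := by
    funext i
    simp only [Pi.add_apply]
    split_ifs <;> simp
  map_smul' r f := by
    funext i
    simp only [Pi.smul_apply, smul_eq_mul, RingHom.id_apply]
    split_ifs <;> simp

variable (c : J → V → ℝ) (D : ℕ) (A : Finset V)

/-- the balancing operator on columns -/
noncomputable def MM : Module.End ℝ (V → ℝ) :=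
  RA A - (1 / (1 + (D : ℝ))) • (CT c A ∘ₗ CA c A)

/-- the balancing operator on rows -/
noncomputable def NN : Module.End ℝ (J → ℝ) :=
  LinearMap.id - (1 / (1 + (D : ℝ))) • (CA c A ∘ₗ CT c A)

theorem MM_apply (f : V → ℝ) (i : V) :
    MM c D A f i = (if i ∈ A then f i else 0) - 1 / (1 + (D : ℝ)) * CT c A (CA c A f) i := rfl

theorem NN_apply (g : J → ℝ) (j : J) :
    NN c D A g j = g j - 1 / (1 + (D : ℝ)) * CA c A (CT c A g) j := rfl

variable {c D A}

theorem CA_apply (f : V → ℝ) (j : J) : CA c A f j = ∑ i ∈ A, c j i * f i := rfl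

theorem CT_apply (g : J → ℝ) (i : V) :
    CT c A g i = if i ∈ A then ∑ j, c j i * g j else 0 := rfl

/-- adjointness -/
theorem adj (f : V → ℝ) (g : J → ℝ) : ∑ j, g j * CA c A f j = ∑ i, CT c A g i * f i := by
  have h1 : ∑ i, CT c A g i * f i = ∑ i ∈ A, (∑ j, c j i * g j) * f i := by
    rw [← Finset.sum_filter_add_sum_filter_not univ (fun i => i ∈ A)]
    have h2 : ∑ i ∈ univ.filter (fun i => ¬ i ∈ A), CT c A g i * f i = 0 := by
      refine Finset.sum_eq_zero fun i hi => ?_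
      rw [CT_apply, if_neg (Finset.mem_filter.1 hi).2, zero_mul]
    rw [h2, add_zero]
    have h3 : univ.filter (fun i => i ∈ A) = A := by ext; simp
    rw [h3]
    refine Finset.sum_congr rfl fun i hi => ?_
    rw [CT_apply, if_pos hi]
  rw [h1]
  simp only [CA_apply, Finset.mul_sum, Finset.sum_mul]
  rw [Finset.sum_comm]
  exact Finset.sum_congr rfl fun i _ => Finset.sum_congr rfl fun j _ => by ring

theorem sum_RA (f g : V → ℝ) : ∑ i, f i * (if i ∈ A then g i else 0) = ∑ i ∈ A, f i * g i := by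
  rw [← Finset.sum_filter_add_sum_filter_not univ (fun i => i ∈ A)]
  have h2 : ∑ i ∈ univ.filter (fun i => ¬ i ∈ A), f i * (if i ∈ A then g i else 0) = 0 := by
    refine Finset.sum_eq_zero fun i hi => ?_
    rw [if_neg (Finset.mem_filter.1 hi).2, mul_zero]
  rw [h2, add_zero]
  have h3 : univ.filter (fun i => i ∈ A) = A := by ext; simp
  rw [h3]
  refine Finset.sum_congr rfl fun i hi => ?_
  rw [if_pos hi]

theorem ip_MM (f g : V → ℝ) : ∑ i, f i * MM c D A g i
    = ∑ i ∈ A, f i * g i - 1 / (1 + (D : ℝ)) * ∑ j, CA c A f j * CA c A g j := by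
  simp only [MM_apply, mul_sub, Finset.sum_sub_distrib]
  rw [sum_RA]
  congr 1
  rw [Finset.sum_congr rfl (fun j _ => mul_comm (CA c A f j) (CA c A g j)), adj, Finset.mul_sum]
  exact Finset.sum_congr rfl fun i _ => by ring

theorem MM_symm (f g : V → ℝ) : ∑ i, f i * MM c D A g i = ∑ i, MM c D A f i * g i := by
  rw [ip_MM, Finset.sum_congr rfl (fun i _ => mul_comm (MM c D A f i) (g i)), ip_MM]
  congr 1
  · exact Finset.sum_congr rfl fun i _ => by ring
  · congr 1
    exact Finset.sum_congr rfl fun i _ => by ring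

theorem MMpow_symm (k : ℕ) : ∀ f g : V → ℝ,
    ∑ i, f i * (MM c D A ^ k) g i = ∑ i, (MM c D A ^ k) f i * g i := by
  induction k with
  | zero => intro f g; simp
  | succ k ih =>
    intro f g
    rw [pow_succ]
    simp only [Module.End.mul_apply]
    rw [ih, MM_symm]
    have : ∀ h, MM c D A ((MM c D A ^ k) h) = (MM c D A ^ k) (MM c D A h) := by
      intro h
      rw [← Module.End.mul_apply, ← Module.End.mul_apply, ← pow_succ, ← pow_succ']
    simp only [this]

theorem ip_NN (f g : J → ℝ) : ∑ j, f j * NN c D A g j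
    = ∑ j, f j * g j - 1 / (1 + (D : ℝ)) * ∑ i, CT c A f i * CT c A g i := by
  simp only [NN_apply, mul_sub, Finset.sum_sub_distrib]
  congr 1
  rw [← adj, Finset.mul_sum]
  exact Finset.sum_congr rfl fun i _ => by ring

theorem NN_symm (f g : J → ℝ) : ∑ j, f j * NN c D A g j = ∑ j, NN c D A f j * g j := by
  rw [ip_NN, Finset.sum_congr rfl (fun i _ => mul_comm (NN c D A f i) (g i)), ip_NN]
  congr 1
  · exact Finset.sum_congr rfl fun i _ => by ring
  · congr 1
    exact Finset.sum_congr rfl fun i _ => by ring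

/-- intertwining -/
theorem MM_CT (g : J → ℝ) : MM c D A (CT c A g) = CT c A (NN c D A g) := by
  have h : NN c D A g = g - (1 / (1 + (D : ℝ))) • CA c A (CT c A g) := rfl
  rw [h, map_sub, map_smul]
  funext i
  rw [MM_apply]
  simp only [Pi.sub_apply, Pi.smul_apply, smul_eq_mul]
  congr 1
  by_cases hi : i ∈ A
  · simp [hi]
  · simp [hi, CT_apply]

theorem MMpow_CT (k : ℕ) (g : J → ℝ) : (MM c D A ^ k) (CT c A g) = CT c A ((NN c D A ^ k) g) := by
  induction k with
  | zero => simp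
  | succ k ih => rw [pow_succ', pow_succ', Module.End.mul_apply, ih, MM_CT, Module.End.mul_apply]

section bounds

variable (hc : ∀ i, ∑ j, c j i ^ 2 ≤ 1) (hrow : ∀ j, #(univ.filter fun i => c j i ≠ 0) ≤ D)
include hc hrow

theorem CA_sq_le (f : V → ℝ) : ∑ j, CA c A f j ^ 2 ≤ D * ∑ i ∈ A, f i ^ 2 := by
  have h1 : ∀ j, CA c A f j ^ 2 ≤ D * ∑ i ∈ A, c j i ^ 2 * f i ^ 2 := by
    intro j
    have e1 : CA c A f j = ∑ i ∈ A.filter (fun i => c j i ≠ 0), c j i * f i := by
      rw [CA_apply, Finset.sum_filter_of_ne]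
      intro i _ h h0
      exact h (by rw [h0, zero_mul])
    rw [e1]
    calc (∑ i ∈ A.filter (fun i => c j i ≠ 0), c j i * f i) ^ 2
        ≤ #(A.filter (fun i => c j i ≠ 0)) * ∑ i ∈ A.filter (fun i => c j i ≠ 0), (c j i * f i) ^ 2 :=
          sq_sum_le_card_mul_sum_sq
      _ ≤ D * ∑ i ∈ A, c j i ^ 2 * f i ^ 2 := by
          apply mul_le_mul
          · have h2 : #(A.filter (fun i => c j i ≠ 0)) ≤ D :=
              (Finset.card_le_card (Finset.filter_subset_filter _ (Finset.subset_univ A))).trans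
                (hrow j)
            exact_mod_cast h2
          · calc ∑ i ∈ A.filter (fun i => c j i ≠ 0), (c j i * f i) ^ 2
                ≤ ∑ i ∈ A, (c j i * f i) ^ 2 :=
                  Finset.sum_le_sum_of_subset_of_nonneg (Finset.filter_subset _ _)
                    (fun i _ _ => sq_nonneg _)
              _ = _ := Finset.sum_congr rfl fun i _ => by ring
          · exact Finset.sum_nonneg fun i _ => sq_nonneg _
          · positivity
  calc ∑ j, CA c A f j ^ 2 ≤ ∑ j, D * ∑ i ∈ A, c j i ^ 2 * f i ^ 2 :=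
        Finset.sum_le_sum fun j _ => h1 j
    _ = D * ∑ i ∈ A, (∑ j, c j i ^ 2) * f i ^ 2 := by
        rw [← Finset.mul_sum, Finset.sum_comm]
        congr 1
        exact Finset.sum_congr rfl fun i _ => by rw [Finset.sum_mul]
    _ ≤ D * ∑ i ∈ A, f i ^ 2 := by
        apply mul_le_mul_of_nonneg_left _ (by positivity)
        refine Finset.sum_le_sum fun i _ => ?_
        have := mul_le_mul_of_nonneg_right (hc i) (sq_nonneg (f i))
        linarith

theorem CT_sq_le (g : J → ℝ) : ∑ i, CT c A g i ^ 2 ≤ D * ∑ j, g j ^ 2 := by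
  classical
  have h1 : ∀ i, CT c A g i ^ 2 ≤ ∑ j, (if c j i ≠ 0 then g j ^ 2 else 0) := by
    intro i
    rw [CT_apply]
    split_ifs with hi
    · have e1 : ∑ j, c j i * g j = ∑ j, c j i * (if c j i ≠ 0 then g j else 0) := by
        refine Finset.sum_congr rfl fun j _ => ?_
        by_cases h : c j i = 0
        · simp [h]
        · simp [h]
      rw [e1]
      calc (∑ j, c j i * (if c j i ≠ 0 then g j else 0)) ^ 2
          ≤ (∑ j, c j i ^ 2) * ∑ j, (if c j i ≠ 0 then g j else 0) ^ 2 :=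
            Finset.sum_mul_sq_le_sq_mul_sq _ _ _
        _ ≤ 1 * ∑ j, (if c j i ≠ 0 then g j else 0) ^ 2 :=
            mul_le_mul_of_nonneg_right (hc i) (Finset.sum_nonneg fun j _ => sq_nonneg _)
        _ = _ := by
            rw [one_mul]
            refine Finset.sum_congr rfl fun j _ => ?_
            by_cases h : c j i = 0
            · simp [h]
            · simp [h]
    · rw [zero_pow two_ne_zero]
      exact Finset.sum_nonneg fun j _ => by positivity
  calc ∑ i, CT c A g i ^ 2 ≤ ∑ i, ∑ j, (if c j i ≠ 0 then g j ^ 2 else 0) :=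
        Finset.sum_le_sum fun i _ => h1 i
    _ = ∑ j, (#(univ.filter fun i => c j i ≠ 0) : ℝ) * g j ^ 2 := by
        rw [Finset.sum_comm]
        refine Finset.sum_congr rfl fun j _ => ?_
        rw [← Finset.sum_filter, Finset.sum_const, nsmul_eq_mul]
    _ ≤ ∑ j, (D : ℝ) * g j ^ 2 := by
        refine Finset.sum_le_sum fun j _ => ?_
        apply mul_le_mul_of_nonneg_right _ (sq_nonneg _)
        exact_mod_cast hrow j
    _ = _ := by rw [Finset.mul_sum]

theorem MM_sq_le (f : V → ℝ) : ∑ i, MM c D A f i ^ 2 ≤ ∑ i ∈ A, f i ^ 2 := by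
  set κ : ℝ := 1 / (1 + (D : ℝ)) with hκ
  have hκ0 : 0 ≤ κ := by positivity
  have hκD : κ * D ≤ 1 := by
    rw [hκ, one_div, inv_mul_le_iff₀ (by positivity)]; linarith
  set h := CT c A (CA c A f) with hh
  set E := ∑ j, CA c A f j ^ 2 with hE
  have hE0 : 0 ≤ E := Finset.sum_nonneg fun j _ => sq_nonneg _
  have e1 : ∑ i, h i * f i = E := by
    rw [hh, ← adj, hE]
    exact Finset.sum_congr rfl fun j _ => by ring
  have e2 : ∑ i, h i ^ 2 ≤ D * E := CT_sq_le hc hrow _
  have e3 : ∑ i, MM c D A f i ^ 2 = ∑ i ∈ A, f i ^ 2 - 2 * κ * ∑ i, h i * f i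
      + κ ^ 2 * ∑ i, h i ^ 2 := by
    have e4 : ∀ i, MM c D A f i ^ 2 = f i * (if i ∈ A then f i else 0) - 2 * κ * (h i * f i)
        + κ ^ 2 * h i ^ 2 := by
      intro i
      rw [MM_apply]
      by_cases hi : i ∈ A
      · simp only [if_pos hi]; ring
      · have : h i = 0 := by rw [hh, CT_apply, if_neg hi]
        simp only [if_neg hi, ← hh, this]; ring
    simp only [e4, Finset.sum_add_distrib, Finset.sum_sub_distrib, ← Finset.mul_sum]
    rw [sum_RA]
    congr 2
    exact Finset.sum_congr rfl fun i _ => by ring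
  rw [e3, e1]
  have e5 : κ ^ 2 * ∑ i, h i ^ 2 ≤ κ * E := by
    calc κ ^ 2 * ∑ i, h i ^ 2 ≤ κ ^ 2 * (D * E) := mul_le_mul_of_nonneg_left e2 (sq_nonneg _)
      _ = (κ * D) * (κ * E) := by ring
      _ ≤ 1 * (κ * E) := mul_le_mul_of_nonneg_right hκD (by positivity)
      _ = _ := one_mul _
  nlinarith [mul_nonneg hκ0 hE0]

theorem MMpow_sq_le (k : ℕ) (f : V → ℝ) : ∑ i, (MM c D A ^ k) f i ^ 2 ≤ ∑ i, f i ^ 2 := by
  induction k with
  | zero => simp
  | succ k ih =>
    rw [pow_succ', Module.End.mul_apply]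
    calc _ ≤ ∑ i ∈ A, ((MM c D A ^ k) f i) ^ 2 := MM_sq_le hc hrow _
      _ ≤ ∑ i, ((MM c D A ^ k) f i) ^ 2 :=
          Finset.sum_le_sum_of_subset_of_nonneg (Finset.subset_univ _) fun i _ _ => sq_nonneg _
      _ ≤ _ := ih

theorem CT_le_diff (g : J → ℝ) : ∑ i, CT c A g i ^ 2
    ≤ (1 + D) * (∑ j, g j ^ 2 - ∑ j, NN c D A g j ^ 2) := by
  set κ : ℝ := 1 / (1 + (D : ℝ)) with hκ
  have hκ0 : 0 < κ := by positivity
  have hκD : κ * D ≤ 1 := by
    rw [hκ, one_div, inv_mul_le_iff₀ (by positivity)]; linarith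
  set h := CA c A (CT c A g) with hh
  set E := ∑ i, CT c A g i ^ 2 with hE
  have hE0 : 0 ≤ E := Finset.sum_nonneg fun j _ => sq_nonneg _
  have e1 : ∑ j, g j * h j = E := by
    rw [hh, adj, hE]
    exact Finset.sum_congr rfl fun j _ => by ring
  have e2 : ∑ j, h j ^ 2 ≤ D * E := by
    refine (CA_sq_le hc hrow _).trans ?_
    apply mul_le_mul_of_nonneg_left _ (by positivity)
    exact Finset.sum_le_sum_of_subset_of_nonneg (Finset.subset_univ _) fun i _ _ => sq_nonneg _
  have e3 : ∑ j, NN c D A g j ^ 2 = ∑ j, g j ^ 2 - 2 * κ * ∑ j, g j * h j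
      + κ ^ 2 * ∑ j, h j ^ 2 := by
    have e4 : ∀ j, NN c D A g j ^ 2 = g j ^ 2 - 2 * κ * (g j * h j) + κ ^ 2 * h j ^ 2 := by
      intro j
      rw [NN_apply]; ring
    simp only [e4, Finset.sum_add_distrib, Finset.sum_sub_distrib, ← Finset.mul_sum]
  rw [e3, e1]
  have e5 : κ ^ 2 * ∑ i, h i ^ 2 ≤ κ * E := by
    calc κ ^ 2 * ∑ i, h i ^ 2 ≤ κ ^ 2 * (D * E) := mul_le_mul_of_nonneg_left e2 (sq_nonneg _)
      _ = (κ * D) * (κ * E) := by ring
      _ ≤ 1 * (κ * E) := mul_le_mul_of_nonneg_right hκD (by positivity)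
      _ = _ := one_mul _
  have e6 : (1 + (D : ℝ)) * κ = 1 := by rw [hκ]; field_simp
  calc E = (1 + (D : ℝ)) * κ * E := by rw [e6, one_mul]
    _ = (1 + (D : ℝ)) * (κ * E) := by ring
    _ ≤ _ := by
        apply mul_le_mul_of_nonneg_left _ (by positivity)
        linarith

theorem seq_aux (a : ℕ → ℝ) (h : ∀ k, a (k + 1) - a (k + 2) ≤ a k - a (k + 1)) (d : ℕ) :
    (d + 1 : ℝ) * (a d - a (d + 1)) ≤ a 0 - a (d + 1) := by
  induction d with
  | zero => simp
  | succ d ih =>
    push_cast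
    have h1 := h d
    have h2 : ((d : ℝ) + 1) * (a (d + 1) - a (d + 2)) ≤ (d + 1) * (a d - a (d + 1)) :=
      mul_le_mul_of_nonneg_left h1 (by positivity)
    have h3 : ((d : ℝ) + 1 + 1) * (a (d + 1) - a (d + 1 + 1))
        = (d + 1) * (a (d + 1) - a (d + 2)) + (a (d + 1) - a (d + 2)) := by ring
    rw [h3]
    linarith

/-- row variance bound -/
theorem row_var (d : ℕ) (hd : D ≤ d) (g : J → ℝ) :
    ∑ i, (MM c D A ^ d) (CT c A g) i ^ 2 ≤ ∑ j, g j ^ 2 := by
  rw [MMpow_CT]
  set a : ℕ → ℝ := fun k => ∑ j, (NN c D A ^ k) g j ^ 2 with ha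
  have ha0 : ∀ k, 0 ≤ a k := fun k => Finset.sum_nonneg fun j _ => sq_nonneg _
  have h1 : ∀ k, a (k + 1) - a (k + 2) ≤ a k - a (k + 1) := by
    intro k
    set φ := (NN c D A ^ k) g with hφ
    have e1 : (NN c D A ^ (k + 1)) g = NN c D A φ := by
      rw [pow_succ', Module.End.mul_apply]
    have e2 : (NN c D A ^ (k + 2)) g = NN c D A (NN c D A φ) := by
      rw [pow_succ', Module.End.mul_apply, e1]
    have e3 : ∑ j, φ j * NN c D A (NN c D A φ) j = a (k + 1) := by
      rw [NN_symm, ha]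
      simp only [e1]
      exact Finset.sum_congr rfl fun j _ => by ring
    have e4 : 0 ≤ ∑ j, (φ j - NN c D A (NN c D A φ) j) ^ 2 :=
      Finset.sum_nonneg fun j _ => sq_nonneg _
    have e5 : ∑ j, (φ j - NN c D A (NN c D A φ) j) ^ 2 = a k - 2 * a (k + 1) + a (k + 2) := by
      have : ∀ j, (φ j - NN c D A (NN c D A φ) j) ^ 2 = φ j ^ 2
          - 2 * (φ j * NN c D A (NN c D A φ) j) + NN c D A (NN c D A φ) j ^ 2 := fun j => by ring
      simp only [this, Finset.sum_add_distrib, Finset.sum_sub_distrib, ← Finset.mul_sum]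
      rw [e3, ha]
      simp only [e2]
      rw [← hφ]
    linarith
  have h2 := seq_aux hc hrow a h1 d
  have h3 : ∑ i, CT c A ((NN c D A ^ d) g) i ^ 2 ≤ (1 + D) * (a d - a (d + 1)) := by
    have := CT_le_diff (A := A) hc hrow ((NN c D A ^ d) g)
    rw [← Module.End.mul_apply, ← pow_succ'] at this
    exact this
  have h4 : 0 ≤ a d - a (d + 1) := by
    have h5 : 0 ≤ (1 + (D : ℝ)) * (a d - a (d + 1)) :=
      le_trans (Finset.sum_nonneg fun j _ => sq_nonneg _) h3
    exact (mul_nonneg_iff_of_pos_left (by positivity)).1 h5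
  have h6 : (1 + (D : ℝ)) ≤ d + 1 := by
    have : (D : ℝ) ≤ d := by exact_mod_cast hd
    linarith
  have h7 : a 0 = ∑ j, g j ^ 2 := by simp [ha]
  calc _ ≤ (1 + (D : ℝ)) * (a d - a (d + 1)) := h3
    _ ≤ (d + 1) * (a d - a (d + 1)) := mul_le_mul_of_nonneg_right h6 h4
    _ ≤ a 0 - a (d + 1) := h2
    _ ≤ a 0 := by linarith [ha0 (d + 1)]
    _ = _ := h7

end bounds

/-- unit vector -/
def ee (i : V) : V → ℝ := Pi.single i 1

omit [Fintype V] in
theorem ee_self (i : V) : ee i i = 1 := by simp [ee]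

theorem sum_ee_mul (i : V) (f : V → ℝ) : ∑ p, ee i p * f p = f i := by
  simp [ee, Pi.single_apply]

theorem sum_mul_ee (i : V) (f : V → ℝ) : ∑ p, f p * ee i p = f i := by
  simp [ee, Pi.single_apply]

theorem MMpow_ee_symm (k : ℕ) (i p : V) : (MM c D A ^ k) (ee i) p = (MM c D A ^ k) (ee p) i := by
  have := MMpow_symm (c := c) (D := D) (A := A) k (ee p) (ee i)
  rwa [sum_ee_mul, sum_mul_ee] at this

theorem MMpow_two_mul (k : ℕ) (i : V) : (MM c D A ^ (2 * k)) (ee i) i
    = ∑ p, (MM c D A ^ k) (ee i) p ^ 2 := by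
  have h1 := MMpow_symm (c := c) (D := D) (A := A) k (ee i) ((MM c D A ^ k) (ee i))
  rw [sum_ee_mul] at h1
  rw [two_mul, pow_add, Module.End.mul_apply, h1]
  exact Finset.sum_congr rfl fun j _ => by ring

theorem diag_dbl (r : ℕ) (i : V) (h0 : 0 ≤ MM c D A (ee i) i) :
    (MM c D A (ee i) i) ^ (2 ^ r) ≤ (MM c D A ^ (2 ^ r)) (ee i) i := by
  induction r with
  | zero => simp
  | succ r ih =>
    rw [pow_succ 2 r, mul_comm (2 ^ r) 2, MMpow_two_mul]
    have h1 : 0 ≤ (MM c D A (ee i) i) ^ (2 ^ r) := pow_nonneg h0 _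
    calc (MM c D A (ee i) i) ^ (2 * 2 ^ r) = ((MM c D A (ee i) i) ^ (2 ^ r)) ^ 2 := by
          rw [← pow_mul, mul_comm]
      _ ≤ ((MM c D A ^ (2 ^ r)) (ee i) i) ^ 2 := pow_le_pow_left₀ h1 ih 2
      _ ≤ ∑ p, (MM c D A ^ (2 ^ r)) (ee i) p ^ 2 :=
          Finset.single_le_sum (f := fun p => (MM c D A ^ (2 ^ r)) (ee i) p ^ 2)
            (fun p _ => sq_nonneg _) (Finset.mem_univ i)

theorem MM_ee_self (hc : ∀ i, ∑ j, c j i ^ 2 ≤ 1) {i : V} (hi : i ∈ A) :
    (D : ℝ) / (1 + D) ≤ MM c D A (ee i) i := by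
  have h1 : ∑ p, ee i p * MM c D A (ee i) p = MM c D A (ee i) i := sum_ee_mul _ _
  rw [ip_MM] at h1
  rw [← h1]
  have h2 : ∑ p ∈ A, ee i p * ee i p = 1 := by
    rw [Finset.sum_eq_single i]
    · rw [ee_self, one_mul]
    · intro b _ hb
      simp [ee, hb]
    · intro h; exact absurd hi h
  have h3 : ∀ j, CA c A (ee i) j = c j i := by
    intro j
    rw [CA_apply, Finset.sum_eq_single i]
    · rw [ee_self, mul_one]
    · intro b _ hb
      simp [ee, hb]
    · intro h; exact absurd hi h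
  have h4 : ∑ j, CA c A (ee i) j * CA c A (ee i) j = ∑ j, c j i ^ 2 :=
    Finset.sum_congr rfl fun j _ => by rw [h3]; ring
  rw [h2, h4]
  have h5 : 1 / (1 + (D : ℝ)) * ∑ j, c j i ^ 2 ≤ 1 / (1 + (D : ℝ)) * 1 :=
    mul_le_mul_of_nonneg_left (hc i) (by positivity)
  have h6 : (D : ℝ) / (1 + D) = 1 - 1 / (1 + (D : ℝ)) * 1 := by
    field_simp; ring
  linarith

/-- diagonal of the squared power -/
theorem diag_lower (hc : ∀ i, ∑ j, c j i ^ 2 ≤ 1) (hD1 : 1 ≤ D) {i : V} (hi : i ∈ A) (r : ℕ)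
    (hr : 2 ^ r ≤ 2 * D) :
    (1 : ℝ) / 64 ≤ ∑ p, (MM c D A ^ (2 ^ r)) (ee i) p ^ 2 := by
  have hDr : (1 : ℝ) ≤ D := by exact_mod_cast hD1
  set β : ℝ := (D : ℝ) / (1 + D) with hβ
  have hβ0 : 0 < β := by positivity
  have hβ1 : β ≤ 1 := by rw [hβ, div_le_one (by positivity)]; linarith
  have h1 := MM_ee_self (D := D) hc hi
  have h2 := diag_dbl (c := c) (D := D) (A := A) (r + 1) i (hβ0.le.trans h1)
  rw [pow_succ 2 r, mul_comm (2 ^ r) 2, MMpow_two_mul] at h2
  refine le_trans ?_ h2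
  have h3 : β ^ (4 * D) ≤ (MM c D A (ee i) i) ^ (2 * 2 ^ r) := by
    calc β ^ (4 * D) ≤ β ^ (2 * 2 ^ r) := pow_le_pow_of_le_one hβ0.le hβ1 (by omega)
      _ ≤ _ := pow_le_pow_left₀ hβ0.le h1 _
  refine le_trans ?_ h3
  have h4 : Real.exp (-(1 / (D : ℝ))) ≤ β := by
    have h5 : 1 + 1 / (D : ℝ) ≤ Real.exp (1 / D) := by
      have := Real.add_one_le_exp (1 / (D : ℝ)); linarith
    have h6 : β = (1 + 1 / (D : ℝ))⁻¹ := by rw [hβ]; field_simp; ring
    rw [h6, Real.exp_neg]
    exact inv_anti₀ (by positivity) h5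
  have h5 : Real.exp (-4) ≤ β ^ (4 * D) := by
    calc Real.exp (-4) = Real.exp (-(1 / (D : ℝ))) ^ (4 * D) := by
          rw [← Real.exp_nat_mul]
          congr 1
          push_cast
          field_simp
      _ ≤ _ := pow_le_pow_left₀ (Real.exp_pos _).le h4 _
  refine le_trans ?_ h5
  have h6 : Real.exp 1 < 2.7182818286 := Real.exp_one_lt_d9
  have h7 : Real.exp 4 ≤ 64 := by
    calc Real.exp 4 = Real.exp 1 ^ 4 := by rw [← Real.exp_nat_mul]; norm_num
      _ ≤ 2.7182818286 ^ 4 := pow_le_pow_left₀ (Real.exp_pos _).le h6.le 4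
      _ ≤ 64 := by norm_num
  rw [Real.exp_neg, one_div]
  exact inv_anti₀ (Real.exp_pos _) h7

section sup

variable (hc : ∀ i, ∑ j, c j i ^ 2 ≤ 1) (hrow : ∀ j, #(univ.filter fun i => c j i ≠ 0) ≤ D)
  (hcol : ∀ i, #(univ.filter fun j => c j i ≠ 0) ≤ D)
include hc hrow hcol

theorem abs_c_le (j : J) (i : V) : |c j i| ≤ 1 := by
  have h1 : c j i ^ 2 ≤ 1 := le_trans
    (Finset.single_le_sum (f := fun j => c j i ^ 2) (fun j _ => sq_nonneg _) (Finset.mem_univ j))
    (hc i)
  exact (sq_le_one_iff_abs_le_one _).1 h1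

theorem abs_CA_le {f : V → ℝ} {B : ℝ} (hB : 0 ≤ B) (hf : ∀ i, |f i| ≤ B) (j : J) :
    |CA c A f j| ≤ D * B := by
  rw [CA_apply]
  have e1 : ∑ i ∈ A, c j i * f i = ∑ i ∈ A.filter (fun i => c j i ≠ 0), c j i * f i := by
    rw [Finset.sum_filter_of_ne]
    intro i _ h h0
    exact h (by rw [h0, zero_mul])
  rw [e1]
  calc _ ≤ ∑ i ∈ A.filter (fun i => c j i ≠ 0), |c j i * f i| := Finset.abs_sum_le_sum_abs _ _
    _ ≤ ∑ _i ∈ A.filter (fun i => c j i ≠ 0), B := by
        refine Finset.sum_le_sum fun i _ => ?_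
        rw [abs_mul]
        calc |c j i| * |f i| ≤ 1 * B :=
              mul_le_mul (abs_c_le hc hrow hcol j i) (hf i) (abs_nonneg _) zero_le_one
          _ = B := one_mul B
    _ = #(A.filter (fun i => c j i ≠ 0)) * B := by simp
    _ ≤ D * B := by
        apply mul_le_mul_of_nonneg_right _ hB
        have h2 : #(A.filter (fun i => c j i ≠ 0)) ≤ D :=
          (Finset.card_le_card (Finset.filter_subset_filter _ (Finset.subset_univ A))).trans
            (hrow j)
        exact_mod_cast h2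

theorem abs_MM_le {f : V → ℝ} {B : ℝ} (hB : 0 ≤ B) (hf : ∀ i, |f i| ≤ B) (i : V) :
    |MM c D A f i| ≤ (1 + D) * B := by
  rw [MM_apply, CT_apply]
  by_cases hi : i ∈ A
  · simp only [if_pos hi]
    have e1 : ∑ j, c j i * CA c A f j = ∑ j ∈ univ.filter (fun j => c j i ≠ 0), c j i * CA c A f j := by
      rw [Finset.sum_filter_of_ne]
      intro j _ h h0
      exact h (by rw [h0, zero_mul])
    have e2 : |∑ j, c j i * CA c A f j| ≤ D * (D * B) := by
      rw [e1]
      calc _ ≤ ∑ j ∈ univ.filter (fun j => c j i ≠ 0), |c j i * CA c A f j| :=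
            Finset.abs_sum_le_sum_abs _ _
        _ ≤ ∑ _j ∈ univ.filter (fun j => c j i ≠ 0), D * B := by
            refine Finset.sum_le_sum fun j _ => ?_
            rw [abs_mul]
            calc |c j i| * |CA c A f j| ≤ 1 * (D * B) :=
                  mul_le_mul (abs_c_le hc hrow hcol j i) (abs_CA_le hc hrow hcol hB hf j)
                    (abs_nonneg _) zero_le_one
              _ = _ := one_mul _
        _ = #(univ.filter (fun j => c j i ≠ 0)) * (D * B) := by simp
        _ ≤ D * (D * B) := by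
            apply mul_le_mul_of_nonneg_right _ (by positivity)
            exact_mod_cast hcol i
    have e3 : |1 / (1 + (D : ℝ)) * ∑ j, c j i * CA c A f j| ≤ D * B := by
      rw [abs_mul, abs_of_nonneg (by positivity)]
      calc 1 / (1 + (D : ℝ)) * |∑ j, c j i * CA c A f j| ≤ 1 / (1 + (D : ℝ)) * (D * (D * B)) :=
            mul_le_mul_of_nonneg_left e2 (by positivity)
        _ = ((D : ℝ) / (1 + D)) * (D * B) := by ring
        _ ≤ 1 * (D * B) := by
            apply mul_le_mul_of_nonneg_right _ (by positivity)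
            rw [div_le_one (by positivity)]; linarith
        _ = _ := one_mul _
    calc _ ≤ |f i| + |1 / (1 + (D : ℝ)) * ∑ j, c j i * CA c A f j| := abs_sub _ _
      _ ≤ B + D * B := add_le_add (hf i) e3
      _ = _ := by ring
  · simp only [if_neg hi, mul_zero, sub_zero, abs_zero]
    positivity

theorem abs_MMpow_le {f : V → ℝ} {B : ℝ} (hB : 0 ≤ B) (hf : ∀ i, |f i| ≤ B) (k : ℕ) :
    ∀ i, |(MM c D A ^ k) f i| ≤ (1 + D) ^ k * B := by
  induction k with
  | zero => intro i; simpa using hf i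
  | succ k ih =>
    intro i
    rw [pow_succ', Module.End.mul_apply]
    refine (abs_MM_le hc hrow hcol (by positivity) ih i).trans (le_of_eq ?_)
    ring

/-- absolute row sums -/
theorem sum_abs_le (k : ℕ) (i : V) : ∑ p, |(MM c D A ^ k) (ee p) i| ≤ (1 + D) ^ k := by
  set s : V → ℝ := fun p => if 0 ≤ (MM c D A ^ k) (ee p) i then 1 else -1 with hs
  have h1 : (MM c D A ^ k) s i = ∑ p, |(MM c D A ^ k) (ee p) i| := by
    have h2 : s = ∑ p, s p • ee p := by
      funext q
      rw [Finset.sum_apply]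
      simp [ee, Pi.single_apply]
    conv_lhs => rw [h2]
    rw [map_sum, Finset.sum_apply]
    refine Finset.sum_congr rfl fun p _ => ?_
    rw [map_smul, Pi.smul_apply, smul_eq_mul, hs]
    by_cases h : 0 ≤ (MM c D A ^ k) (ee p) i
    · simp only [if_pos h, one_mul, abs_of_nonneg h]
    · simp only [if_neg h, abs_of_neg (not_le.1 h)]; ring
  rw [← h1]
  have h3 : ∀ p, |s p| ≤ 1 := by
    intro p
    simp only [hs]
    split_ifs <;> simp
  have := abs_MMpow_le (A := A) hc hrow hcol zero_le_one h3 k i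
  rw [mul_one] at this
  exact le_trans (le_abs_self _) this

end sup

end Pool.Agent.Helper26.Loc
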