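import Mathlib

namespace Pool.Agent.Helper26.Loc

open Finset Real

/-- uniform average -/
noncomputable def avg {Ω : Type*} [Fintype Ω] (f : Ω → ℝ) : ℝ := (∑ ω, f ω) / Fintype.card Ω

section
variable {Ω : Type*} [Fintype Ω]

theorem avg_mono {f g : Ω → ℝ} (h : ∀ ω, f ω ≤ g ω) : avg f ≤ avg g := by
  unfold avg
  exact div_le_div_of_nonneg_right (Finset.sum_le_sum fun ω _ => h ω) (by positivity)

theorem avg_nonneg {f : Ω → ℝ} (h : ∀ ω, 0 ≤ f ω) : 0 ≤ avg f := by
  unfold avg
  exact div_nonneg (Finset.sum_nonneg fun ω _ => h ω) (by positivity)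

theorem avg_const [Nonempty Ω] (a : ℝ) : avg (fun _ : Ω => a) = a := by
  unfold avg
  have : (Fintype.card Ω : ℝ) ≠ 0 := by exact_mod_cast Fintype.card_ne_zero
  rw [Finset.sum_const, Finset.card_univ, nsmul_eq_mul]
  field_simp

theorem avg_mul_left (a : ℝ) (f : Ω → ℝ) : avg (fun ω => a * f ω) = a * avg f := by
  unfold avg
  rw [← Finset.mul_sum, mul_div_assoc]

theorem avg_mul_right (a : ℝ) (f : Ω → ℝ) : avg (fun ω => f ω * a) = avg f * a := by
  unfold avg
  rw [← Finset.sum_mul, div_mul_eq_mul_div]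

theorem avg_sum {ι : Type*} (s : Finset ι) (f : ι → Ω → ℝ) :
    avg (fun ω => ∑ k ∈ s, f k ω) = ∑ k ∈ s, avg (f k) := by
  unfold avg
  rw [Finset.sum_comm, Finset.sum_div]

end

open Classical in
/-- indicator of a proposition -/
noncomputable def ind (p : Prop) : ℝ := if p then 1 else 0

theorem ind_true {p : Prop} (h : p) : ind p = 1 := if_pos h

theorem ind_false {p : Prop} (h : ¬ p) : ind p = 0 := if_neg h

theorem ind_nonneg (p : Prop) : 0 ≤ ind p := by
  unfold ind; split_ifs <;> norm_num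

theorem ind_mono {p q : Prop} (h : p → q) : ind p ≤ ind q := by
  by_cases hp : p
  · rw [ind_true hp, ind_true (h hp)]
  · rw [ind_false hp]; exact ind_nonneg q

theorem avg_ind_mem {Ω : Type*} [Fintype Ω] (S : Finset Ω) :
    avg (fun ω => ind (ω ∈ S)) = (#S : ℝ) / Fintype.card Ω := by
  unfold avg
  congr 1
  have h1 : ∑ ω, ind (ω ∈ S) = ∑ ω ∈ S, ind (ω ∈ S) := by
    symm
    apply Finset.sum_subset (Finset.subset_univ S)
    intro ω _ hω
    exact ind_false hω
  rw [h1, Finset.sum_congr rfl (fun ω hω => ind_true hω)]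
  simp

/-- sign of a bit -/
def sgb (b : Bool) : ℝ := if b then 1 else -1

theorem abs_sgb (b : Bool) : |sgb b| = 1 := by cases b <;> simp [sgb]

section bits
variable {V : Type*} [Fintype V] [DecidableEq V]

theorem avg_exp_linear (a : V → ℝ) :
    avg (fun ξ : V → Bool => exp (∑ p, a p * sgb (ξ p))) ≤ exp ((∑ p, a p ^ 2) / 2) := by
  have h1 : ∑ ξ : V → Bool, exp (∑ p, a p * sgb (ξ p)) = ∏ p, (2 * cosh (a p)) := by
    have h2 : ∀ p, 2 * cosh (a p) = ∑ b : Bool, exp (a p * sgb b) := by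
      intro p
      rw [Fintype.sum_bool, cosh_eq]
      simp [sgb]
      ring
    simp only [h2]
    rw [Finset.prod_univ_sum, Fintype.piFinset_univ]
    exact Finset.sum_congr rfl fun ξ _ => by rw [exp_sum]
  unfold avg
  rw [h1, Finset.prod_mul_distrib, Finset.prod_const, Finset.card_univ]
  have h3 : (Fintype.card (V → Bool) : ℝ) = 2 ^ Fintype.card V := by
    rw [Fintype.card_fun, Fintype.card_bool]; push_cast; rfl
  rw [h3, mul_div_cancel_left₀ _ (by positivity)]
  have h4 : exp ((∑ p, a p ^ 2) / 2) = ∏ p, exp (a p ^ 2 / 2) := by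
    rw [← exp_sum, Finset.sum_div]
  rw [h4]
  exact Finset.prod_le_prod (fun p _ => (cosh_pos _).le) fun p _ => cosh_le_exp_half_sq _

theorem sum_bit (q : V) (G : (V → Bool) → ℝ) :
    ∑ ξ, G ξ = (∑ ξ, (G (Function.update ξ q true) + G (Function.update ξ q false)) / 2) := by
  let e : ((V → Bool) × Bool) ≃ ((V → Bool) × Bool) :=
    { toFun := fun p => (Function.update p.1 q p.2, p.1 q)
      invFun := fun p => (Function.update p.1 q p.2, p.1 q)
      left_inv := by intro p; simp
      right_inv := by intro p; simp }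
  have h1 : ∑ ξ : V → Bool, ∑ b : Bool, G (Function.update ξ q b)
      = ∑ p : (V → Bool) × Bool, G (e p).1 := by
    rw [Fintype.sum_prod_type]; rfl
  rw [Equiv.sum_comp e (fun p => G p.1), Fintype.sum_prod_type] at h1
  simp only [Fintype.sum_bool, Finset.sum_const, Finset.card_univ, Fintype.card_bool] at h1
  have h2 : ∑ ξ : V → Bool, 2 • G ξ = 2 * ∑ ξ, G ξ := by
    rw [Finset.mul_sum]
    exact Finset.sum_congr rfl fun ξ _ => by rw [nsmul_eq_mul]; norm_num
  rw [h2] at h1
  rw [← Finset.sum_div, h1]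
  ring

theorem two_point (s w η γ : ℝ) (W2 : ℝ) :
    (exp (-η * (s + 2 * γ * w + γ ^ 2 * W2)) + exp (-η * (s - 2 * γ * w + γ ^ 2 * W2))) / 2
      ≤ exp (-η * s) * exp (-η * γ ^ 2 * W2 + 2 * η ^ 2 * γ ^ 2 * w ^ 2) := by
  have e1 : exp (-η * (s + 2 * γ * w + γ ^ 2 * W2))
      = exp (-η * s) * exp (-η * γ ^ 2 * W2) * exp (-(2 * η * γ * w)) := by
    rw [← exp_add, ← exp_add]; congr 1; ring
  have e2 : exp (-η * (s - 2 * γ * w + γ ^ 2 * W2))
      = exp (-η * s) * exp (-η * γ ^ 2 * W2) * exp (2 * η * γ * w) := by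
    rw [← exp_add, ← exp_add]; congr 1; ring
  have e3 : exp (-η * γ ^ 2 * W2 + 2 * η ^ 2 * γ ^ 2 * w ^ 2)
      = exp (-η * γ ^ 2 * W2) * exp ((2 * η * γ * w) ^ 2 / 2) := by
    rw [← exp_add]; congr 1; ring
  rw [e1, e2, e3]
  have h := cosh_le_exp_half_sq (2 * η * γ * w)
  rw [cosh_eq] at h
  have h0 : 0 ≤ exp (-η * s) * exp (-η * γ ^ 2 * W2) := by positivity
  have := mul_le_mul_of_nonneg_left h h0
  nlinarith

/-- one synchronous step, revealed bit by bit -/
theorem avg_exp_quad (I : Finset V) (x : V → ℝ) (w : V → V → ℝ) (η γ : ℝ) (hγ : 0 ≤ γ)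
    (B : V → ℝ)
    (hB : ∀ q, |∑ i ∈ I, x i * w q i| + γ * ∑ p, |∑ i ∈ I, w p i * w q i| ≤ B q) :
    avg (fun ξ : V → Bool => exp (-η * ∑ i ∈ I, (x i + γ * ∑ p, sgb (ξ p) * w p i) ^ 2))
      ≤ exp (-η * ∑ i ∈ I, x i ^ 2) *
        exp (∑ q, (-η * γ ^ 2 * ∑ i ∈ I, w q i ^ 2 + 2 * η ^ 2 * γ ^ 2 * B q ^ 2)) := by
  have key : ∀ S : Finset V,
      avg (fun ξ : V → Bool => exp (-η * ∑ i ∈ I, (x i + γ * ∑ p ∈ S, sgb (ξ p) * w p i) ^ 2))
      ≤ exp (-η * ∑ i ∈ I, x i ^ 2) *
        exp (∑ q ∈ S, (-η * γ ^ 2 * ∑ i ∈ I, w q i ^ 2 + 2 * η ^ 2 * γ ^ 2 * B q ^ 2)) := by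
    intro S
    induction S using Finset.induction_on with
    | empty =>
      simp only [Finset.sum_empty, mul_zero, add_zero, exp_zero, mul_one]
      rw [avg_const]
    | insert q S hq ih =>
      set X : (V → Bool) → V → ℝ := fun ξ i => x i + γ * ∑ p ∈ S, sgb (ξ p) * w p i with hX
      have hXupd : ∀ ξ b i, X (Function.update ξ q b) i = X ξ i := by
        intro ξ b i
        simp only [hX]
        congr 2
        refine Finset.sum_congr rfl fun p hp => ?_
        have : p ≠ q := fun h => hq (h ▸ hp)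
        rw [Function.update_of_ne this]
      have hstep : ∀ ξ : V → Bool,
          (exp (-η * ∑ i ∈ I, (x i + γ * ∑ p ∈ insert q S,
              sgb ((Function.update ξ q true) p) * w p i) ^ 2)
            + exp (-η * ∑ i ∈ I, (x i + γ * ∑ p ∈ insert q S,
              sgb ((Function.update ξ q false) p) * w p i) ^ 2)) / 2
          ≤ exp (-η * ∑ i ∈ I, X ξ i ^ 2) *
            exp (-η * γ ^ 2 * ∑ i ∈ I, w q i ^ 2 + 2 * η ^ 2 * γ ^ 2 * B q ^ 2) := by
        intro ξ
        have hb : ∀ b : Bool, ∑ i ∈ I, (x i + γ * ∑ p ∈ insert q S,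
              sgb ((Function.update ξ q b) p) * w p i) ^ 2
            = ∑ i ∈ I, X ξ i ^ 2 + 2 * (γ * sgb b) * ∑ i ∈ I, X ξ i * w q i
              + γ ^ 2 * ∑ i ∈ I, w q i ^ 2 := by
          intro b
          rw [Finset.mul_sum, Finset.mul_sum, ← Finset.sum_add_distrib, ← Finset.sum_add_distrib]
          refine Finset.sum_congr rfl fun i _ => ?_
          rw [Finset.sum_insert hq, Function.update_self]
          have h1 : x i + γ * (sgb b * w q i + ∑ p ∈ S, sgb ((Function.update ξ q b) p) * w p i)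
              = X (Function.update ξ q b) i + γ * sgb b * w q i := by
            simp only [hX]; ring
          rw [h1, hXupd]
          have h2 : sgb b ^ 2 = 1 := by cases b <;> simp [sgb]
          calc (X ξ i + γ * sgb b * w q i) ^ 2
              = X ξ i ^ 2 + 2 * (γ * sgb b) * (X ξ i * w q i) + γ ^ 2 * sgb b ^ 2 * w q i ^ 2 := by
                ring
            _ = _ := by rw [h2]; ring
        rw [hb true, hb false]
        have hs1 : sgb true = 1 := rfl
        have hs2 : sgb false = -1 := rfl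
        rw [hs1, hs2]
        have h3 := two_point (∑ i ∈ I, X ξ i ^ 2) (∑ i ∈ I, X ξ i * w q i) η γ
          (∑ i ∈ I, w q i ^ 2)
        have h4 : (∑ i ∈ I, X ξ i * w q i) ^ 2 ≤ B q ^ 2 := by
          rw [← sq_abs]
          apply pow_le_pow_left₀ (abs_nonneg _)
          refine le_trans ?_ (hB q)
          have h5 : ∑ i ∈ I, X ξ i * w q i
              = ∑ i ∈ I, x i * w q i + γ * ∑ p ∈ S, sgb (ξ p) * ∑ i ∈ I, w p i * w q i := by
            simp only [hX, add_mul, Finset.sum_add_distrib]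
            congr 1
            rw [Finset.mul_sum]
            simp only [Finset.mul_sum, Finset.sum_mul]
            rw [Finset.sum_comm]
            refine Finset.sum_congr rfl fun p _ => Finset.sum_congr rfl fun i _ => ?_
            ring
          rw [h5]
          refine (abs_add_le _ _).trans (add_le_add le_rfl ?_)
          rw [abs_mul, abs_of_nonneg hγ]
          apply mul_le_mul_of_nonneg_left _ hγ
          calc |∑ p ∈ S, sgb (ξ p) * ∑ i ∈ I, w p i * w q i|
              ≤ ∑ p ∈ S, |sgb (ξ p) * ∑ i ∈ I, w p i * w q i| := Finset.abs_sum_le_sum_abs _ _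
            _ = ∑ p ∈ S, |∑ i ∈ I, w p i * w q i| :=
                Finset.sum_congr rfl fun p _ => by rw [abs_mul, abs_sgb, one_mul]
            _ ≤ _ := Finset.sum_le_sum_of_subset_of_nonneg (Finset.subset_univ _)
                fun p _ _ => abs_nonneg _
        calc _ = (exp (-η * (∑ i ∈ I, X ξ i ^ 2 + 2 * γ * (∑ i ∈ I, X ξ i * w q i)
                  + γ ^ 2 * ∑ i ∈ I, w q i ^ 2))
              + exp (-η * (∑ i ∈ I, X ξ i ^ 2 - 2 * γ * (∑ i ∈ I, X ξ i * w q i)
                  + γ ^ 2 * ∑ i ∈ I, w q i ^ 2))) / 2 := by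
              congr 3 <;> ring
          _ ≤ _ := h3
          _ ≤ _ := by
              apply mul_le_mul_of_nonneg_left _ (exp_pos _).le
              apply exp_le_exp.2
              have : 0 ≤ 2 * η ^ 2 * γ ^ 2 := by positivity
              nlinarith
      unfold avg
      rw [sum_bit q]
      calc _ ≤ (∑ ξ : V → Bool, exp (-η * ∑ i ∈ I, X ξ i ^ 2) *
            exp (-η * γ ^ 2 * ∑ i ∈ I, w q i ^ 2 + 2 * η ^ 2 * γ ^ 2 * B q ^ 2))
              / Fintype.card (V → Bool) :=
            div_le_div_of_nonneg_right (Finset.sum_le_sum fun ξ _ => hstep ξ) (by positivity)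
        _ = avg (fun ξ : V → Bool => exp (-η * ∑ i ∈ I, X ξ i ^ 2)) *
            exp (-η * γ ^ 2 * ∑ i ∈ I, w q i ^ 2 + 2 * η ^ 2 * γ ^ 2 * B q ^ 2) := by
            unfold avg
            rw [← Finset.sum_mul, div_mul_eq_mul_div]
        _ ≤ (exp (-η * ∑ i ∈ I, x i ^ 2) *
              exp (∑ q ∈ S, (-η * γ ^ 2 * ∑ i ∈ I, w q i ^ 2 + 2 * η ^ 2 * γ ^ 2 * B q ^ 2))) *
            exp (-η * γ ^ 2 * ∑ i ∈ I, w q i ^ 2 + 2 * η ^ 2 * γ ^ 2 * B q ^ 2) :=
            mul_le_mul_of_nonneg_right ih (exp_pos _).le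
        _ = _ := by
            rw [mul_assoc, ← exp_add, Finset.sum_insert hq, add_comm (∑ q ∈ S, _)]
  exact key univ

end bits

section slices

variable {V : Type*} [Fintype V] [DecidableEq V] {N : ℕ}

/-- replace the bits of time `n` -/
def setSlice (n : Fin N) (ω : V → Fin N → Bool) (ξ : V → Bool) : V → Fin N → Bool :=
  fun p => Function.update (ω p) n (ξ p)

theorem avg_slice (n : Fin N) (G : (V → Fin N → Bool) → ℝ) :
    avg G = avg (fun ω => avg (fun ξ : V → Bool => G (setSlice n ω ξ))) := by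
  let e : ((V → Fin N → Bool) × (V → Bool)) ≃ ((V → Fin N → Bool) × (V → Bool)) :=
    { toFun := fun p => (setSlice n p.1 p.2, fun v => p.1 v n)
      invFun := fun p => (setSlice n p.1 p.2, fun v => p.1 v n)
      left_inv := by
        intro p
        ext v
        · simp [setSlice]
        · simp [setSlice]
      right_inv := by
        intro p
        ext v
        · simp [setSlice]
        · simp [setSlice] }
  have h1 : ∑ ω, ∑ ξ : V → Bool, G (setSlice n ω ξ)
      = ∑ p : (V → Fin N → Bool) × (V → Bool), G (e p).1 := by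
    rw [Fintype.sum_prod_type]; rfl
  rw [Equiv.sum_comp e (fun p => G p.1), Fintype.sum_prod_type] at h1
  simp only [Finset.sum_const, Finset.card_univ, nsmul_eq_mul] at h1
  rw [← Finset.mul_sum] at h1
  unfold avg
  rw [← Finset.sum_div, h1]
  have : (Fintype.card (V → Bool) : ℝ) ≠ 0 := by exact_mod_cast Fintype.card_ne_zero
  field_simp

end slices

end Pool.Agent.Helper26.Loc
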