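import Pool.Agent.Helper26.Loc.Phase
import Pool.Agent.Helper26.Loc.Glue
import Pool.Agent.Helper26.Loc.Pre

namespace Pool.Agent.Helper26.Loc

open Finset Real
open Pool.Agent.Helper26.Gsw (dev dev_add cl mem_cl cl_eq touched Ebd Ebd_nonneg Ebd_le Tch
  recursion)

variable {V J : Type*} [Fintype V] [DecidableEq V] [Fintype J] [DecidableEq J]

namespace Par

variable {P : Par V J} (hP : P.Ok)
  (hD : ∀ j, #(univ.filter fun l => ∃ i, P.c j i ≠ 0 ∧ P.c l i ≠ 0) ≤ P.D)
include hP hD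

/-- finishing the clusters -/
theorem finish (hN : 0 < P.N)
    (h1 : 2 * exp (-(P.L ^ 2 / (2 * (P.N * P.γ ^ 2)))) ≤ (1 / (2 * (P.D : ℝ)) ^ 26) ^ 2)
    (h2 : exp (1 / 1024 - P.N * P.γ ^ 2 / 2 ^ 17) ≤ (1 / (2 * (P.D : ℝ)) ^ 26) ^ 2)
    {lam : ℝ} (hl : 0 < lam)
    (hlam : 2 * exp (-(lam ^ 2 / 2)) ≤ 1 / (4 * (P.D : ℝ) ^ 4)) (k : ℕ) :
    ∃ χ : V → ℝ, (∀ i, χ i = 1 ∨ χ i = -1) ∧
      ∀ j, |dev P.c P.z j χ| ≤ P.L + 1 + P.D * P.δ + Ebd lam P.D k (P.kk * P.D) := by
  classical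
  obtain ⟨ω, hω⟩ := phase1 hP hD hN h1 h2
  set x := P.xs ω P.N with hx
  have hxabs : ∀ i, |x i| ≤ 1 := abs_xs_le hP ω P.N
  have hδ0 : 0 < P.δ := lt_of_lt_of_le (mul_pos hP.hγ (U_pos hP)) hP.hδ
  set y : V → ℝ := fun i => if |x i| < 1 - P.δ then x i else if 0 ≤ x i then 1 else -1 with hy
  have hy1 : ∀ i, |x i| < 1 - P.δ → y i = x i := fun i h => by simp [hy, h]
  have hy2 : ∀ i, ¬ |x i| < 1 - P.δ → |y i| = 1 := by
    intro i h
    simp only [hy, if_neg h]
    split_ifs <;> simp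
  have hyabs : ∀ i, |y i| ≤ 1 := by
    intro i
    by_cases h : |x i| < 1 - P.δ
    · rw [hy1 i h]; exact hxabs i
    · exact (hy2 i h).le
  have hyx : ∀ i, |y i - x i| ≤ P.δ := by
    intro i
    by_cases h : |x i| < 1 - P.δ
    · rw [hy1 i h, sub_self, abs_zero]; exact hδ0.le
    · have h3 := hxabs i
      have h4 := not_lt.1 h
      simp only [hy, if_neg h]
      by_cases h5 : 0 ≤ x i
      · rw [abs_of_nonneg h5] at h3 h4
        rw [if_pos h5, abs_of_nonneg (by linarith)]; linarith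
      · rw [abs_of_neg (not_le.1 h5)] at h3 h4
        rw [if_neg h5, abs_of_nonpos (by linarith)]; linarith
  have hfrac : ∀ i, |y i| ≠ 1 → |x i| < 1 - P.δ := by
    intro i h
    by_contra h'
    exact h (hy2 i h')
  -- deviation of the rounded point
  have hdevy : ∀ j, |dev P.c P.z j y| ≤ P.L + 1 + P.D * P.δ := by
    intro j
    rw [dev_add P.c P.z x y j]
    have h3 : |dev P.c x j y| ≤ P.D * P.δ := by
      have := abs_CA_le (A := univ) hP.hc hP.hrow hP.hcol hδ0.le hyx j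
      rw [CA_apply] at this
      exact this
    calc _ ≤ |dev P.c P.z j x| + |dev P.c x j y| := abs_add_le _ _
      _ ≤ (P.L + 1) + P.D * P.δ := add_le_add (abs_dev_xs_le hP ω P.N j) h3
  -- cause of a fractional coordinate
  have hq : ∀ i, |y i| ≠ 1 → ∃ a : J ⊕ V, P.bad ω a ∧ ∀ l, P.c l i ≠ 0 → tq P.c a l := by
    intro i h
    by_cases hb : ∃ j, P.c j i ≠ 0 ∧ P.L ≤ |dev P.c P.z j x|
    · obtain ⟨j, hj1, hj2⟩ := hb
      exact ⟨Sum.inl j, hj2, fun l hl => ⟨i, hj1, hl⟩⟩
    · push Not at hb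
      refine ⟨Sum.inr i, ?_, fun l hl => hl⟩
      change i ∈ P.alive x
      rw [mem_alive]
      exact ⟨hfrac i h, hb⟩
  choose q hq1 hq2 using hq
  obtain ⟨χ, hχ1, hχ2⟩ := glue P.c y q (P.br ω) (br_symm ω)
    (fun l i i' hi hi' hc hc' => ⟨hq1 i hi, hq1 i' hi', l, hq2 i hi l hc, hq2 i' hi' l hc'⟩)
    P.kk (fun i hi => hω _ (hq1 i hi)) (Ebd lam P.D k (P.kk * P.D)) (Ebd_nonneg hl.le _ _ _)
    (fun C hC => by
      have hZ : ∀ i, |ZZ y q C i| ≤ 1 := by
        intro i
        by_cases h : |y i| = 1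
        · rw [ZZ_of_eq h]; exact hyabs i
        · by_cases h' : q i h ∈ C
          · rw [ZZ_of_mem h h']; exact hyabs i
          · rw [ZZ_of_not_mem h h']; simp
      have htouch : (touched P.c (ZZ y q C)).card ≤ P.kk * P.D := by
        have hsub : touched P.c (ZZ y q C) ⊆ C.biUnion (fun a => univ.filter fun l => tq P.c a l) := by
          intro l hl'
          simp only [touched, Finset.mem_filter, Finset.mem_univ, true_and] at hl'
          obtain ⟨i, h3, h4⟩ := hl'
          by_cases h : |y i| = 1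
          · rw [ZZ_of_eq h, h] at h4; exact absurd h4 (lt_irrefl _)
          · by_cases h' : q i h ∈ C
            · rw [Finset.mem_biUnion]
              exact ⟨q i h, h', by simpa using hq2 i h l h3⟩
            · rw [ZZ_of_not_mem h h'] at h4; simp at h4
        have hdeg : ∀ a, #(univ.filter fun l => tq P.c a l) ≤ P.D := by
          intro a
          cases a with
          | inl j =>
            refine le_trans (Finset.card_le_card fun l hl => ?_) (hD j)
            exact Finset.mem_filter.2 ⟨Finset.mem_univ _, (Finset.mem_filter.1 hl).2⟩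
          | inr i =>
            refine le_trans (Finset.card_le_card fun l hl => ?_) (hP.hcol i)
            exact Finset.mem_filter.2 ⟨Finset.mem_univ _, (Finset.mem_filter.1 hl).2⟩
        calc _ ≤ _ := Finset.card_le_card hsub
          _ ≤ ∑ a ∈ C, #(univ.filter fun l => tq P.c a l) := Finset.card_biUnion_le
          _ ≤ ∑ _a ∈ C, P.D := Finset.sum_le_sum fun a _ => hdeg a
          _ = #C * P.D := by simp
          _ ≤ _ := Nat.mul_le_mul_right _ hC
      have hTch : ∀ j, #(univ.filter (Tch P.c j)) ≤ P.D := by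
        intro j
        refine le_trans (Finset.card_le_card fun l hl => ?_) (hD j)
        exact Finset.mem_filter.2 ⟨Finset.mem_univ _, (Finset.mem_filter.1 hl).2⟩
      obtain ⟨χ, h3, h4, h5⟩ := recursion P.c hP.hc hP.hD1 hTch hl hlam k (ZZ y q C) hZ _ htouch
      exact ⟨χ, h3, h4, h5⟩)
  refine ⟨χ, hχ1, fun j => ?_⟩
  rw [dev_add P.c P.z y χ j]
  exact (abs_add_le _ _).trans (add_le_add (hdevy j) (hχ2 j))

end Par

end Pool.Agent.Helper26.Loc
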