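import Pool.Agent.Helper26.Loc.Core

namespace Pool.Agent.Helper26.Loc

open Finset Real
open Pool.Agent.Helper26.Gsw (dev dev_add touched Ebd Ebd_nonneg Ebd_le eq_or_of_abs)

variable {V J : Type*} [Fintype V] [DecidableEq V] [Fintype J] [DecidableEq J]

theorem core (c : J → V → ℝ) (hc : ∀ i, ∑ j, c j i ^ 2 ≤ 1) {D : ℕ} (hD1 : 1 ≤ D)
    (hrow : ∀ j, #(univ.filter fun i => c j i ≠ 0) ≤ D)
    (hcol : ∀ i, #(univ.filter fun j => c j i ≠ 0) ≤ D)
    (hD : ∀ j, #(univ.filter fun l => ∃ i, c j i ≠ 0 ∧ c l i ≠ 0) ≤ D)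
    (z : V → ℝ) (hz : ∀ i, |z i| ≤ 1) :
    ∃ χ : V → ℝ, (∀ i, χ i = 1 ∨ χ i = -1) ∧ ∀ j, |dev c z j χ| ≤ 30000 * log (2 * D) := by
  have hDr : (1 : ℝ) ≤ D := by exact_mod_cast hD1
  set X : ℝ := 2 * (D : ℝ) with hX
  have hX2 : 2 ≤ X := by rw [hX]; linarith
  have hX0 : 0 < X := by linarith
  set ℓ := log X with hℓ
  have hℓ0 : (69 : ℝ) / 100 ≤ ℓ := by
    have h1 : log 2 ≤ ℓ := log_le_log (by norm_num) hX2
    have := Real.log_two_gt_d9
    linarith
  have hℓX : ℓ ≤ X := (log_le_sub_one_of_pos hX0).trans (by linarith)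
  -- parameters
  set r := Nat.clog 2 D with hr
  have hd1 : D ≤ 2 ^ r := Nat.le_pow_clog (by norm_num) D
  have hd2 : 2 ^ r ≤ 2 * D := by
    rcases Nat.eq_or_lt_of_le hD1 with h | h
    · rw [hr, ← h]; simp
    · have h3 := Nat.pow_pred_clog_lt_self (b := 2) (by norm_num) h
      have h4 : 1 ≤ Nat.clog 2 D := Nat.clog_pos (by norm_num) h
      obtain ⟨m, hm⟩ := Nat.exists_eq_add_of_le' h4
      rw [hr]
      rw [hm] at h3 ⊢
      simp only [Nat.pred_eq_sub_one, Nat.add_sub_cancel] at h3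
      rw [pow_succ]; omega
  set d := 2 ^ r with hd
  set U : ℝ := (1 + (D : ℝ)) ^ d with hU
  have hU1 : 1 ≤ U := one_le_pow₀ (by linarith)
  have hU0 : 0 < U := by linarith
  set γ : ℝ := 1 / (X * U ^ 2) with hγ
  have hγ0 : 0 < γ := by positivity
  have hγ1 : γ ≤ 1 := by
    rw [hγ, div_le_one (by positivity)]
    nlinarith [one_le_pow₀ hU1 (n := 2)]
  set T0 : ℝ := 2 ^ 17 * (52 * ℓ + 1) with hT0
  have hT00 : 0 < T0 := by positivity
  set N := ⌈T0 / γ ^ 2⌉₊ with hN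
  have hNpos : 0 < N := Nat.ceil_pos.2 (by positivity)
  have hN1 : T0 ≤ N * γ ^ 2 := by
    have := Nat.le_ceil (T0 / γ ^ 2)
    rw [div_le_iff₀ (by positivity)] at this
    exact this
  have hN0 : (N : ℝ) ≤ T0 / γ ^ 2 + 1 := (Nat.ceil_lt_add_one (by positivity)).le
  have hγsq : γ ^ 2 ≤ 1 := pow_le_one₀ hγ0.le hγ1
  have hN2 : N * γ ^ 2 ≤ T0 + 1 := by
    calc (N : ℝ) * γ ^ 2 ≤ (T0 / γ ^ 2 + 1) * γ ^ 2 :=
          mul_le_mul_of_nonneg_right hN0 (by positivity)
      _ = T0 + γ ^ 2 := by field_simp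
      _ ≤ T0 + 1 := by linarith
  set L : ℝ := √(2 * (T0 + 1) * (52 * ℓ + 1)) with hL
  have hLpos : 0 < L := sqrt_pos.2 (by positivity)
  have hLsq : L ^ 2 = 2 * (T0 + 1) * (52 * ℓ + 1) := sq_sqrt (by positivity)
  have hq : (1 / X ^ 26) ^ 2 = exp (-(52 * ℓ)) := by
    rw [div_pow, one_pow, ← pow_mul, exp_neg, one_div]
    congr 1
    rw [show (52 : ℝ) * ℓ = ((26 * 2 : ℕ) : ℝ) * ℓ by norm_num, exp_nat_mul, hℓ, exp_log hX0]
  have h1 : 2 * exp (-(L ^ 2 / (2 * (N * γ ^ 2)))) ≤ (1 / X ^ 26) ^ 2 := by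
    rw [hq]
    have h3 : 52 * ℓ + 1 ≤ L ^ 2 / (2 * (N * γ ^ 2)) := by
      rw [hLsq, le_div_iff₀ (by positivity)]
      have : (52 * ℓ + 1) * (2 * (N * γ ^ 2)) ≤ (52 * ℓ + 1) * (2 * (T0 + 1)) :=
        mul_le_mul_of_nonneg_left (by linarith) (by positivity)
      linarith
    have h4 : exp (-(L ^ 2 / (2 * (N * γ ^ 2)))) ≤ exp (-(52 * ℓ)) * exp (-1) := by
      rw [← exp_add]; apply exp_le_exp.2; linarith
    have h5 : 2 * exp (-1) ≤ 1 := by
      rw [exp_neg]
      have := Real.exp_one_gt_d9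
      rw [← div_eq_mul_inv, div_le_one (exp_pos _)]
      linarith
    calc _ ≤ 2 * (exp (-(52 * ℓ)) * exp (-1)) := mul_le_mul_of_nonneg_left h4 (by norm_num)
      _ = exp (-(52 * ℓ)) * (2 * exp (-1)) := by ring
      _ ≤ exp (-(52 * ℓ)) * 1 := mul_le_mul_of_nonneg_left h5 (exp_pos _).le
      _ = _ := mul_one _
  have h2 : exp (1 / 1024 - N * γ ^ 2 / 2 ^ 17) ≤ (1 / X ^ 26) ^ 2 := by
    rw [hq]
    apply exp_le_exp.2
    have h3 : (52 * ℓ + 1) ≤ N * γ ^ 2 / 2 ^ 17 := by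
      rw [le_div_iff₀ (by norm_num)]; linarith
    linarith
  let P : Par V J := ⟨c, D, r, z, γ, 1 / X, L, N⟩
  have hPU : P.U = U := rfl
  have hP : P.Ok :=
    { hc := hc
      hrow := hrow
      hcol := hcol
      hD1 := hD1
      hd1 := hd1
      hd2 := hd2
      hz := hz
      hγ := hγ0
      hδ := by
        change γ * U ≤ 1 / X
        rw [hγ]
        rw [show 1 / (X * U ^ 2) * U = (1 / X) * (1 / U) by field_simp]
        have : 1 / U ≤ 1 := by rw [div_le_one hU0]; exact hU1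
        calc (1 / X) * (1 / U) ≤ (1 / X) * 1 := mul_le_mul_of_nonneg_left this (by positivity)
          _ = _ := mul_one _
      hU := by
        change γ * U ^ 2 ≤ 1
        rw [hγ, show 1 / (X * U ^ 2) * U ^ 2 = 1 / X by field_simp, div_le_one hX0]
        linarith
      hDU := by
        change γ * (D * U) ≤ 1
        rw [hγ, show 1 / (X * U ^ 2) * (D * U) = (D / X) * (1 / U) by field_simp]
        have e1 : (D : ℝ) / X ≤ 1 := by rw [div_le_one hX0, hX]; linarith
        have e2 : 1 / U ≤ 1 := by rw [div_le_one hU0]; exact hU1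
        calc (D : ℝ) / X * (1 / U) ≤ 1 * 1 := mul_le_mul e1 e2 (by positivity) zero_le_one
          _ = 1 := one_mul 1
      hL := hLpos }
  set lam := √(8 * ℓ) with hlamdef
  have hlsq : lam ^ 2 = 8 * ℓ := sq_sqrt (by linarith)
  have hl : 0 < lam := sqrt_pos.2 (by linarith)
  have hlam : 2 * exp (-(lam ^ 2 / 2)) ≤ 1 / (4 * (D : ℝ) ^ 4) := by
    have h1 : -(lam ^ 2 / 2) = -(((4 : ℕ) : ℝ) * ℓ) := by rw [hlsq]; push_cast; ring
    rw [h1, exp_neg, exp_nat_mul, hℓ, exp_log hX0, hX]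
    rw [mul_pow, ← div_eq_mul_inv]
    rw [div_le_div_iff₀ (by positivity) (by positivity)]
    have : 0 < (D : ℝ) ^ 4 := by positivity
    nlinarith
  obtain ⟨χ, hχ1, hχ2⟩ := Par.finish (P := P) hP hD hNpos h1 h2 hl hlam 1
  refine ⟨χ, hχ1, fun j => (hχ2 j).trans ?_⟩
  -- numerical estimates
  have hLle : L ≤ 28000 * ℓ := by
    rw [hL, sqrt_le_left (by positivity)]
    have e1 : 52 * ℓ + 1 ≤ 54 * ℓ := by linarith
    have e2 : T0 + 1 ≤ 2 ^ 17 * 55 * ℓ := by rw [hT0]; nlinarith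
    calc 2 * (T0 + 1) * (52 * ℓ + 1) ≤ 2 * (2 ^ 17 * 55 * ℓ) * (54 * ℓ) := by
          apply mul_le_mul _ e1 (by positivity) (by positivity)
          linarith
      _ ≤ (28000 * ℓ) ^ 2 := by nlinarith [sq_nonneg ℓ]
  have hDδ : (D : ℝ) * (1 / X) = 1 / 2 := by rw [hX]; field_simp
  set M := P.kk * P.D with hM
  have hMle : (M : ℝ) ≤ X ^ (8 * D + 28) := by
    have e0 : (M : ℝ) = N * ((d + 1) * D) := by
      rw [hM]
      change (((N * (d + 1)) * D : ℕ) : ℝ) = _
      push_cast; ring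
    have e1 : (N : ℝ) ≤ (T0 + 1) * (X ^ 2 * U ^ 4) := by
      have e3 : (X ^ 2 * U ^ 4) = 1 / γ ^ 2 := by rw [hγ]; field_simp
      rw [e3]
      calc (N : ℝ) ≤ T0 / γ ^ 2 + 1 := hN0
        _ ≤ T0 / γ ^ 2 + 1 / γ ^ 2 := by
            have : 1 ≤ 1 / γ ^ 2 := by rw [le_div_iff₀ (by positivity)]; linarith
            linarith
        _ = _ := by ring
    have e2 : T0 + 1 ≤ X ^ 24 := by
      have e4 : T0 + 1 ≤ 2 ^ 23 * X := by
        have : T0 + 1 ≤ 2 ^ 17 * 55 * ℓ := by rw [hT0]; nlinarith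
        nlinarith
      calc T0 + 1 ≤ 2 ^ 23 * X := e4
        _ ≤ X ^ 23 * X := mul_le_mul_of_nonneg_right (pow_le_pow_left₀ (by norm_num) hX2 23) hX0.le
        _ = X ^ 24 := by ring
    have e3 : U ^ 4 ≤ X ^ (8 * D) := by
      rw [hU, ← pow_mul]
      calc (1 + (D : ℝ)) ^ (d * 4) ≤ X ^ (d * 4) := pow_le_pow_left₀ (by positivity) (by
            rw [hX]; linarith) _
        _ ≤ X ^ (8 * D) := pow_le_pow_right₀ (by linarith) (by omega)
    have e4 : ((d : ℝ) + 1) * D ≤ X ^ 2 := by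
      have : (d : ℝ) ≤ 2 * D := by exact_mod_cast hd2
      rw [hX]
      nlinarith
    rw [e0]
    calc (N : ℝ) * (((d : ℝ) + 1) * D) ≤ ((T0 + 1) * (X ^ 2 * U ^ 4)) * X ^ 2 :=
          mul_le_mul e1 e4 (by positivity) (by positivity)
      _ ≤ (X ^ 24 * (X ^ 2 * X ^ (8 * D))) * X ^ 2 := by
          apply mul_le_mul_of_nonneg_right _ (by positivity)
          apply mul_le_mul e2 _ (by positivity) (by positivity)
          exact mul_le_mul_of_nonneg_left e3 (by positivity)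
      _ = X ^ (8 * D + 28) := by ring
  have hlogM : log M ≤ 36 * D * ℓ := by
    rcases Nat.eq_zero_or_pos M with h | h
    · rw [h]; simp; positivity
    · calc log M ≤ log (X ^ (8 * D + 28)) := log_le_log (by exact_mod_cast h) hMle
        _ = ((8 * D + 28 : ℕ) : ℝ) * ℓ := by rw [log_pow]
        _ ≤ _ := by
            apply mul_le_mul_of_nonneg_right _ (by linarith)
            push_cast; linarith
  have hE := Ebd_le (lam := lam) hD1 1 M (36 * D * ℓ) (by positivity) (by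
    rw [← hX, ← hℓ]; linarith)
  simp only [Function.iterate_one, Nat.cast_one, one_mul] at hE
  rw [← hX, ← hℓ] at hE
  have hlog : log (1 + 36 * D * ℓ) ≤ 7 * ℓ := by
    have e1 : 1 + 36 * D * ℓ ≤ X ^ 7 := by
      have e2 : 36 * (D : ℝ) * ℓ ≤ 18 * X ^ 2 := by
        rw [show (36 : ℝ) * D = 18 * X by rw [hX]; ring]
        nlinarith
      have e3 : (1 : ℝ) ≤ X ^ 2 := one_le_pow₀ (by linarith)
      have e4 : (32 : ℝ) ≤ X ^ 5 := by
        calc (32 : ℝ) = 2 ^ 5 := by norm_num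
          _ ≤ X ^ 5 := pow_le_pow_left₀ (by norm_num) hX2 5
      have e5 : 32 * X ^ 2 ≤ X ^ 7 := by
        calc 32 * X ^ 2 ≤ X ^ 5 * X ^ 2 := mul_le_mul_of_nonneg_right e4 (by positivity)
          _ = X ^ 7 := by ring
      linarith
    calc log (1 + 36 * D * ℓ) ≤ log (X ^ 7) := log_le_log (by positivity) e1
      _ = 7 * ℓ := by rw [log_pow]; push_cast; rfl
  have hEfin : Ebd lam D 1 M ≤ 11 * ℓ := by
    refine hE.trans ?_
    have e1 : lam ≤ 4 * ℓ := by
      rw [hlamdef, sqrt_le_left (by positivity)]; nlinarith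
    have e2 : √(2 * (5 * ℓ + log (1 + 36 * D * ℓ))) ≤ 7 * ℓ := by
      rw [sqrt_le_left (by positivity)]; nlinarith
    linarith
  change L + 1 + D * (1 / X) + Ebd lam D 1 M ≤ 30000 * ℓ
  rw [hDδ]
  linarith

omit [DecidableEq V] [DecidableEq J] in
/-- The uniform bound, matrix form. -/
theorem uniform_matrix (c : J → V → ℝ) (hc : ∀ i, ∑ j, c j i ^ 2 ≤ 1) {D : ℕ}
    (hD : ∀ j, #(open Classical in univ.filter fun l => ∃ i, c j i ≠ 0 ∧ c l i ≠ 0) ≤ D)
    (z : V → ℝ) (hz : ∀ i, |z i| ≤ 1) :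
    ∃ χ : V → ℤ, (∀ i, χ i = 1 ∨ χ i = -1) ∧
      ∀ j, |∑ i, c j i * ((χ i : ℝ) - z i)| ≤ 30000 * log (2 * D) := by
  classical
  rcases Nat.eq_zero_or_pos D with hD0 | hD1
  · refine ⟨fun _ => 1, fun _ => Or.inl rfl, fun j => ?_⟩
    have h0 : ∀ i, c j i = 0 := by
      intro i
      by_contra h
      have h1 := hD j
      rw [hD0, Nat.le_zero, Finset.card_eq_zero] at h1
      have : j ∈ univ.filter fun l => ∃ i, c j i ≠ 0 ∧ c l i ≠ 0 := by
        simp only [Finset.mem_filter, Finset.mem_univ, true_and]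
        exact ⟨i, h, h⟩
      rw [h1] at this
      exact absurd this (Finset.notMem_empty j)
    simp only [h0, zero_mul, Finset.sum_const_zero, abs_zero]
    rw [hD0]; simp
  · obtain ⟨x, hx1, hx2, hx3⟩ := exists_pre c hD z hz
    set c' : J → V → ℝ := fun j i => if |x i| < 1 then c j i else 0 with hc'
    have hc'1 : ∀ j i, c' j i ≠ 0 → c j i ≠ 0 ∧ |x i| < 1 := by
      intro j i h
      by_cases h1 : |x i| < 1
      · simp only [hc', if_pos h1] at h; exact ⟨h, h1⟩
      · simp [hc', h1] at h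
    obtain ⟨χ, hχ1, hχ2⟩ := core c' (fun i => by
        refine le_trans (Finset.sum_le_sum fun j _ => ?_) (hc i)
        simp only [hc']
        split_ifs
        · exact le_rfl
        · rw [zero_pow two_ne_zero]; exact sq_nonneg _) hD1
      (fun j => by
        refine le_trans (Finset.card_le_card fun i hi => ?_) (hx3 j)
        exact Finset.mem_filter.2 ⟨Finset.mem_univ _, hc'1 j i (Finset.mem_filter.1 hi).2⟩)
      (fun i => by
        by_cases h : ∃ j, c' j i ≠ 0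
        · obtain ⟨j, hj⟩ := h
          refine le_trans (Finset.card_le_card fun l hl => ?_) (hD j)
          exact Finset.mem_filter.2 ⟨Finset.mem_univ _, i, (hc'1 j i hj).1,
            (hc'1 l i (Finset.mem_filter.1 hl).2).1⟩
        · push Not at h
          rw [Finset.card_eq_zero.2]
          · exact Nat.zero_le _
          · exact Finset.filter_eq_empty_iff.2 fun j _ => by simpa using h j)
      (fun j => by
        refine le_trans (Finset.card_le_card fun l hl => ?_) (hD j)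
        obtain ⟨i, h1, h2⟩ := (Finset.mem_filter.1 hl).2
        exact Finset.mem_filter.2 ⟨Finset.mem_univ _, i, (hc'1 j i h1).1, (hc'1 l i h2).1⟩)
      x hx1
    set ψ : V → ℝ := fun i => if |x i| < 1 then χ i else x i with hψ
    have hψ1 : ∀ i, ψ i = 1 ∨ ψ i = -1 := by
      intro i
      by_cases h : |x i| < 1
      · simp only [hψ, if_pos h]; exact hχ1 i
      · simp only [hψ, if_neg h]
        exact eq_or_of_abs (le_antisymm (hx1 i) (not_lt.1 h))
    refine ⟨fun i => if ψ i = 1 then 1 else -1, fun i => ?_, fun j => ?_⟩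
    · by_cases h : ψ i = 1
      · left; simp [h]
      · right; simp [h]
    · have e0 : ∑ i, c j i * ((((if ψ i = 1 then 1 else -1 : ℤ)) : ℝ) - z i) =
          ∑ i, c j i * (((if ψ i = 1 then 1 else -1 : ℤ)) : ℝ) - ∑ i, c j i * z i := by
        rw [← Finset.sum_sub_distrib]
        exact Finset.sum_congr rfl fun i _ => by ring
      have e1 : ∀ i, (((if ψ i = 1 then 1 else -1 : ℤ)) : ℝ) = ψ i := by
        intro i
        rcases hψ1 i with h | h
        · simp [h]
        · rw [h]; norm_num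
      have e2 : ∑ i, c j i * (((if ψ i = 1 then 1 else -1 : ℤ)) : ℝ) - ∑ i, c j i * z i =
          dev c' x j χ := by
        have e3 : ∑ i, c j i * ψ i = ∑ i, c j i * x i + dev c' x j χ := by
          unfold dev
          rw [← Finset.sum_add_distrib]
          refine Finset.sum_congr rfl fun i _ => ?_
          by_cases h : |x i| < 1
          · simp only [hψ, hc', if_pos h]; ring
          · simp only [hψ, hc', if_neg h]; ring
        simp only [e1]
        rw [e3, hx2, add_sub_cancel_left]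
      rw [e0, e2]
      exact hχ2 j

end Pool.Agent.Helper26.Loc
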