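import Pool.Agent.Helper26.Loc.Events

namespace Pool.Agent.Helper26.Loc

open Finset Real
open Pool.Agent.Helper26.Gsw (dev chains card_chains mem_chains cl mem_cl long_chain)

namespace Par

variable {V J : Type*} [Fintype V] [DecidableEq V] [Fintype J] [DecidableEq J] {P : Par V J}

/-- radius constant -/
def kk (P : Par V J) : ℕ := P.N * (P.d + 1)

/-- relation between bad causes -/
def br (P : Par V J) (ω : V → Fin P.N → Bool) (a b : J ⊕ V) : Prop :=
  P.bad ω a ∧ P.bad ω b ∧ Rq P.c a b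

omit [DecidableEq J] in
theorem br_symm (ω : V → Fin P.N → Bool) (a b : J ⊕ V) (h : P.br ω a b) : P.br ω b a :=
  ⟨h.2.1, h.1, h.2.2.symm⟩

open Classical in
/-- a long chain of bad causes starts at `a` -/
noncomputable def Ev (P : Par V J) (a : J ⊕ V) : Finset (V → Fin P.N → Bool) :=
  univ.filter fun ω => ∃ l ∈ chains (Rq P.c) (2 * P.kk) a, P.kk + 1 ≤ #l.toFinset ∧
    ∀ b ∈ l, P.bad ω b

theorem mem_Ev {a : J ⊕ V} {ω : V → Fin P.N → Bool} : ω ∈ P.Ev a ↔
    ∃ l ∈ chains (Rq P.c) (2 * P.kk) a, P.kk + 1 ≤ #l.toFinset ∧ ∀ b ∈ l, P.bad ω b := by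
  simp [Ev]

theorem Ev_dep (a : J ⊕ V) :
    DepOn ((nb P.c)^[5 * P.kk + 1] (su P.c a)) (fun ω => ω ∈ P.Ev a) := by
  intro ω ω' h
  have key : ∀ l ∈ chains (Rq P.c) (2 * P.kk) a, ∀ b ∈ l, (P.bad ω b ↔ P.bad ω' b) := by
    intro l hl b hb
    apply bad_congr
    intro v hv
    apply h
    have h1 := chains_su (2 * P.kk) a l hl b hb
    have h2 := nbi_mono h1 (P.N * (P.d + 1) + 1) hv
    rw [← Function.iterate_add_apply] at h2
    have h3 : P.N * (P.d + 1) + 1 + 2 * (2 * P.kk) = 5 * P.kk + 1 := by unfold kk; ring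
    rw [h3] at h2
    exact h2
  simp only [eq_iff_iff, mem_Ev]
  constructor
  · rintro ⟨l, hl, h1, h2⟩
    exact ⟨l, hl, h1, fun b hb => (key l hl b hb).1 (h2 b hb)⟩
  · rintro ⟨l, hl, h1, h2⟩
    exact ⟨l, hl, h1, fun b hb => (key l hl b hb).2 (h2 b hb)⟩

variable (hP : P.Ok)
  (hD : ∀ j, #(univ.filter fun l => ∃ i, P.c j i ≠ 0 ∧ P.c l i ≠ 0) ≤ P.D)
include hP hD

theorem card_Ev (hN : 0 < P.N)
    (h1 : 2 * exp (-(P.L ^ 2 / (2 * (P.N * P.γ ^ 2)))) ≤ (1 / (2 * (P.D : ℝ)) ^ 26) ^ 2)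
    (h2 : exp (1 / 1024 - P.N * P.γ ^ 2 / 2 ^ 17) ≤ (1 / (2 * (P.D : ℝ)) ^ 26) ^ 2) (a : J ⊕ V) :
    4 * (2 * P.D) ^ (20 * P.kk + 6) * #(P.Ev a) ≤ Fintype.card (V → Fin P.N → Bool) := by
  classical
  have hD1 := hP.hD1
  have hDr : (1 : ℝ) ≤ P.D := by exact_mod_cast hD1
  set X : ℝ := 2 * (P.D : ℝ) with hX
  have hX2 : 2 ≤ X := by rw [hX]; linarith
  have hX0 : 0 < X := by linarith
  set ρ : ℝ := 1 / X ^ 26 with hρ
  have hρ0 : 0 ≤ ρ := by positivity
  have hρ1 : ρ ≤ 1 := by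
    rw [hρ, div_le_one (by positivity)]; exact one_le_pow₀ (by linarith)
  set k := P.kk with hk
  set CH : Finset (List (J ⊕ V)) := (chains (Rq P.c) (2 * k) a).filter fun l => k + 1 ≤ #l.toFinset
    with hCH
  have hpt : ∀ ω : V → Fin P.N → Bool, ind (ω ∈ P.Ev a)
      ≤ ∑ l ∈ CH, ind (∀ b ∈ l.toFinset, P.bad ω b) := by
    intro ω
    by_cases h : ω ∈ P.Ev a
    · obtain ⟨l, hl, h3, h4⟩ := mem_Ev.1 h
      have h5 : l ∈ CH := Finset.mem_filter.2 ⟨hl, h3⟩
      rw [ind_true h]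
      have h6 : ind (∀ b ∈ l.toFinset, P.bad ω b) = 1 :=
        ind_true fun b hb => h4 b (List.mem_toFinset.1 hb)
      rw [← h6]
      exact Finset.single_le_sum
            (f := fun l : List (J ⊕ V) => ind (∀ b ∈ l.toFinset, P.bad ω b))
            (fun l _ => ind_nonneg _) h5
    · rw [ind_false h]
      exact Finset.sum_nonneg fun l _ => ind_nonneg _
  have hcard : (#CH : ℝ) ≤ X ^ (4 * k) := by
    have h3 : #CH ≤ (2 * P.D ^ 2) ^ (2 * k) := by
      refine (Finset.card_filter_le _ _).trans ?_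
      exact card_chains _ (fun b => card_Rq hP.hrow hP.hcol hD b) _ _
    have h4 : (#CH : ℝ) ≤ (2 * (P.D : ℝ) ^ 2) ^ (2 * k) := by exact_mod_cast h3
    refine h4.trans ?_
    rw [show 4 * k = 2 * (2 * k) by ring, pow_mul X]
    apply pow_le_pow_left₀ (by positivity)
    rw [hX]; nlinarith
  have hone : ∀ l ∈ CH, avg (fun ω : V → Fin P.N → Bool =>
      ind (∀ b ∈ l.toFinset, P.bad ω b)) ≤ ρ ^ (k + 1) := by
    intro l hl
    have h3 := bad_prob hP hρ0 hρ1 hN h1 h2 l.toFinset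
    have h4 : ρ ^ #l.toFinset ≤ ρ ^ (k + 1) :=
      pow_le_pow_of_le_one hρ0 hρ1 (Finset.mem_filter.1 hl).2
    exact h3.trans h4
  have havg : avg (fun ω : V → Fin P.N → Bool => ind (ω ∈ P.Ev a))
      ≤ X ^ (4 * k) * ρ ^ (k + 1) := by
    have s1 := avg_mono hpt
    rw [avg_sum] at s1
    have s2 := Finset.sum_le_sum hone
    have s3 : ∑ _l ∈ CH, ρ ^ (k + 1) = #CH * ρ ^ (k + 1) := by
      rw [Finset.sum_const, nsmul_eq_mul]
    have s4 : (#CH : ℝ) * ρ ^ (k + 1) ≤ X ^ (4 * k) * ρ ^ (k + 1) :=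
      mul_le_mul_of_nonneg_right hcard (by positivity)
    exact s1.trans (s2.trans (s3.le.trans s4))
  have havg2 : avg (fun ω : V → Fin P.N → Bool => ind (ω ∈ P.Ev a))
      = (#(P.Ev a) : ℝ) / Fintype.card (V → Fin P.N → Bool) := avg_ind_mem _
  rw [havg2] at havg
  have hΩ : (0 : ℝ) < Fintype.card (V → Fin P.N → Bool) := by exact_mod_cast Fintype.card_pos
  rw [div_le_iff₀ hΩ] at havg
  have hfin : 4 * X ^ (20 * k + 6) * (X ^ (4 * k) * ρ ^ (k + 1)) ≤ 1 := by
    have e1 : ρ ^ (k + 1) = 1 / X ^ (26 * (k + 1)) := by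
      rw [hρ, div_pow, one_pow, ← pow_mul]
    rw [e1]
    have e2 : 4 * X ^ (20 * k + 6) * (X ^ (4 * k) * (1 / X ^ (26 * (k + 1))))
        = (4 * (X ^ (20 * k + 6) * X ^ (4 * k))) / X ^ (26 * (k + 1)) := by ring
    rw [e2, div_le_one (by positivity), ← pow_add]
    calc 4 * X ^ (20 * k + 6 + 4 * k) ≤ X ^ 2 * X ^ (20 * k + 6 + 4 * k) := by
          apply mul_le_mul_of_nonneg_right _ (by positivity)
          nlinarith
      _ = X ^ (2 + (20 * k + 6 + 4 * k)) := by rw [← pow_add]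
      _ ≤ X ^ (26 * (k + 1)) := pow_le_pow_right₀ (by linarith) (by omega)
  have hreal : (4 * (2 * (P.D : ℝ)) ^ (20 * k + 6)) * #(P.Ev a)
      ≤ Fintype.card (V → Fin P.N → Bool) := by
    rw [← hX]
    calc (4 * X ^ (20 * k + 6)) * #(P.Ev a)
        ≤ (4 * X ^ (20 * k + 6)) * ((X ^ (4 * k) * ρ ^ (k + 1)) *
            Fintype.card (V → Fin P.N → Bool)) :=
          mul_le_mul_of_nonneg_left havg (by positivity)
      _ = (4 * X ^ (20 * k + 6) * (X ^ (4 * k) * ρ ^ (k + 1))) *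
            Fintype.card (V → Fin P.N → Bool) := by ring
      _ ≤ 1 * Fintype.card (V → Fin P.N → Bool) := mul_le_mul_of_nonneg_right hfin hΩ.le
      _ = _ := one_mul _
  exact_mod_cast hreal

omit hD in
theorem card_overlap (a : J ⊕ V) :
    #(univ.filter fun a' => ¬ Disjoint ((nb P.c)^[5 * P.kk + 1] (su P.c a))
      ((nb P.c)^[5 * P.kk + 1] (su P.c a'))) ≤ (2 * P.D) ^ (20 * P.kk + 6) := by
  classical
  have hD1 := hP.hD1
  set R := 5 * P.kk + 1 with hR
  have hsub : (univ.filter fun a' => ¬ Disjoint ((nb P.c)^[R] (su P.c a))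
      ((nb P.c)^[R] (su P.c a'))) ⊆ ((nb P.c)^[2 * R] (su P.c a)).biUnion (fun i =>
        insert (Sum.inr i) ((univ.filter fun j => P.c j i ≠ 0).map Function.Embedding.inl)) := by
    intro a' ha'
    obtain ⟨i, hi, hi2⟩ := nbi_overlap (Finset.mem_filter.1 ha').2
    rw [Finset.mem_biUnion]
    refine ⟨i, hi2, ?_⟩
    cases a' with
    | inl j =>
      have h1 : P.c j i ≠ 0 := by simpa [su] using hi
      apply Finset.mem_insert_of_mem
      simpa using h1
    | inr i' =>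
      have h1 : i = i' := by simpa [su] using hi
      rw [h1]
      exact Finset.mem_insert_self _ _
  have hsu : #(su P.c a) ≤ P.D := by
    cases a with
    | inl j =>
      refine le_trans (Finset.card_le_card fun i hi => ?_) (hP.hrow j)
      exact Finset.mem_filter.2 ⟨Finset.mem_univ _, by simpa [su] using hi⟩
    | inr i => simpa [su] using hD1
  calc _ ≤ _ := Finset.card_le_card hsub
    _ ≤ ∑ i ∈ (nb P.c)^[2 * R] (su P.c a), #(insert (Sum.inr i)
          ((univ.filter fun j => P.c j i ≠ 0).map Function.Embedding.inl) : Finset (J ⊕ V)) :=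
        Finset.card_biUnion_le
    _ ≤ ∑ _i ∈ (nb P.c)^[2 * R] (su P.c a), (1 + P.D) := by
        refine Finset.sum_le_sum fun i _ => ?_
        refine (Finset.card_insert_le _ _).trans ?_
        rw [Finset.card_map, add_comm]
        exact Nat.add_le_add_left (hP.hcol i) 1
    _ = #((nb P.c)^[2 * R] (su P.c a)) * (1 + P.D) := by simp
    _ ≤ ((1 + P.D ^ 2) ^ (2 * R) * P.D) * (1 + P.D) := by
        apply Nat.mul_le_mul_right
        exact (card_nbi_le hP.hrow hP.hcol _ _).trans (Nat.mul_le_mul_left _ hsu)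
    _ ≤ (((2 * P.D) ^ 2) ^ (2 * R)) * (2 * P.D) ^ 2 := by
        rw [mul_assoc]
        apply Nat.mul_le_mul
        · apply Nat.pow_le_pow_left
          nlinarith
        · nlinarith
    _ = _ := by
        rw [← pow_mul, ← pow_add]
        congr 1
        rw [hR]; ring

/-- existence of a good point of the probability space -/
theorem phase1 (hN : 0 < P.N)
    (h1 : 2 * exp (-(P.L ^ 2 / (2 * (P.N * P.γ ^ 2)))) ≤ (1 / (2 * (P.D : ℝ)) ^ 26) ^ 2)
    (h2 : exp (1 / 1024 - P.N * P.γ ^ 2 / 2 ^ 17) ≤ (1 / (2 * (P.D : ℝ)) ^ 26) ^ 2) :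
    ∃ ω : V → Fin P.N → Bool, ∀ a, P.bad ω a → #(cl (P.br ω) a) ≤ P.kk := by
  classical
  have hD1 := hP.hD1
  obtain ⟨ω, hω⟩ := lll (V := V) (α := Fin P.N → Bool) P.Ev
    (fun a => (nb P.c)^[5 * P.kk + 1] (su P.c a)) Ev_dep ((2 * P.D) ^ (20 * P.kk + 6))
    (by positivity) (fun a => card_Ev hP hD hN h1 h2 a) (fun a => card_overlap hP a)
  refine ⟨ω, fun a ha => ?_⟩
  by_contra hcon
  push Not at hcon
  obtain ⟨l, hl1, hl2, hl3, hl4, hl5⟩ := long_chain (r := P.br ω) (br_symm ω) a P.kk hcon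
  have hbadall : ∀ b ∈ l, P.bad ω b := by
    intro b hb
    have h1 := hl5 b hb
    rw [mem_cl] at h1
    rcases Relation.ReflTransGen.cases_tail h1 with h2 | ⟨b', _, h2⟩
    · rw [h2]; exact ha
    · exact h2.2.1
  obtain ⟨b, l', rfl⟩ : ∃ b l', l = b :: l' := by
    cases l with
    | nil => simp at hl2
    | cons b l' => exact ⟨b, l', rfl⟩
  have hchain : List.IsChain (Rq P.c) (b :: l') := hl1.imp (fun _ _ h => h.2.2)
  have hmem := mem_chains (Rq P.c) l' b hchain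
  have hlen : l'.length = 2 * P.kk := by simpa using hl2
  rw [hlen] at hmem
  apply hω b
  rw [mem_Ev]
  refine ⟨b :: l', hmem, ?_, hbadall⟩
  have h3 : #(b :: l').toFinset = P.kk + 1 := by
    rw [← hl3]
    exact congrArg Finset.card (Finset.ext fun x => by simp only [List.mem_toFinset])
  rw [h3]

end Par

end Pool.Agent.Helper26.Loc
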