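import Pool.Agent.Helper26.GswWalk
import Pool.Agent.Helper26.Loc.Op
import Pool.Agent.Helper26.Loc.Avg

namespace Pool.Agent.Helper26.Loc

open Finset Real
open Pool.Agent.Helper26.Gsw (dev dev_line)

/-- parameters of the local walk -/
structure Par (V J : Type*) where
  c : J → V → ℝ
  D : ℕ
  r : ℕ
  z : V → ℝ
  γ : ℝ
  δ : ℝ
  L : ℝ
  N : ℕ

namespace Par

variable {V J : Type*} [Fintype V] [DecidableEq V] [Fintype J]

/-- exponent of the balancing operator -/
def d (P : Par V J) : ℕ := 2 ^ P.r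

/-- sup norm bound of one move -/
noncomputable def U (P : Par V J) : ℝ := (1 + (P.D : ℝ)) ^ P.d

/-- conditions on the parameters -/
structure Ok (P : Par V J) : Prop where
  hc : ∀ i, ∑ j, P.c j i ^ 2 ≤ 1
  hrow : ∀ j, #(univ.filter fun i => P.c j i ≠ 0) ≤ P.D
  hcol : ∀ i, #(univ.filter fun j => P.c j i ≠ 0) ≤ P.D
  hD1 : 1 ≤ P.D
  hd1 : P.D ≤ P.d
  hd2 : P.d ≤ 2 * P.D
  hz : ∀ i, |P.z i| ≤ 1
  hγ : 0 < P.γ
  hδ : P.γ * P.U ≤ P.δ
  hU : P.γ * P.U ^ 2 ≤ 1
  hDU : P.γ * (P.D * P.U) ≤ 1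
  hL : 0 < P.L

open Classical in
/-- alive coordinates -/
noncomputable def alive (P : Par V J) (x : V → ℝ) : Finset V :=
  univ.filter fun i => |x i| < 1 - P.δ ∧ ∀ j, P.c j i ≠ 0 → |dev P.c P.z j x| < P.L

theorem mem_alive {P : Par V J} {x : V → ℝ} {i : V} :
    i ∈ P.alive x ↔ |x i| < 1 - P.δ ∧ ∀ j, P.c j i ≠ 0 → |dev P.c P.z j x| < P.L := by
  simp [alive]

/-- one move -/
noncomputable def mv (P : Par V J) (x ξ : V → ℝ) : V → ℝ := (MM P.c P.D (P.alive x) ^ P.d) ξ

/-- one step -/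
noncomputable def step (P : Par V J) (x ξ : V → ℝ) : V → ℝ := fun i => x i + P.γ * P.mv x ξ i

/-- bits of time `n` as signs -/
def bit (P : Par V J) (ω : V → Fin P.N → Bool) (n : ℕ) (p : V) : ℝ :=
  sgb (if h : n < P.N then ω p ⟨n, h⟩ else true)

/-- the walk -/
noncomputable def xs (P : Par V J) (ω : V → Fin P.N → Bool) : ℕ → V → ℝ
  | 0 => P.z
  | n + 1 => P.step (P.xs ω n) (P.bit ω n)

theorem abs_bit (P : Par V J) (ω : V → Fin P.N → Bool) (n : ℕ) (p : V) : |P.bit ω n p| = 1 :=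
  abs_sgb _

theorem d_pos (P : Par V J) : 0 < P.d := Nat.pow_pos (by norm_num)

theorem mv_eq_zero (P : Par V J) (x ξ : V → ℝ) {i : V} (hi : i ∉ P.alive x) : P.mv x ξ i = 0 := by
  unfold mv
  obtain ⟨k, hk⟩ := Nat.exists_eq_succ_of_ne_zero P.d_pos.ne'
  rw [hk, Nat.succ_eq_add_one, pow_succ', Module.End.mul_apply, MM_apply, if_neg hi, CT_apply,
    if_neg hi]
  simp

variable {P : Par V J} (hP : P.Ok)
include hP

theorem U_pos : 0 < P.U := by unfold U; positivity

theorem one_le_U : 1 ≤ P.U := by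
  unfold U
  exact one_le_pow₀ (by linarith [Nat.cast_nonneg (α := ℝ) P.D])

theorem abs_mv_le {x ξ : V → ℝ} (hξ : ∀ i, |ξ i| ≤ 1) (i : V) : |P.mv x ξ i| ≤ P.U := by
  have := abs_MMpow_le (A := P.alive x) hP.hc hP.hrow hP.hcol zero_le_one hξ P.d i
  rw [mul_one] at this
  exact this

theorem abs_step_le {x ξ : V → ℝ} (hx : ∀ i, |x i| ≤ 1) (hξ : ∀ i, |ξ i| ≤ 1) (i : V) :
    |P.step x ξ i| ≤ 1 := by
  unfold step
  by_cases hi : i ∈ P.alive x
  · have h1 := (mem_alive.1 hi).1
    have h2 := abs_mv_le hP (x := x) hξ i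
    calc |x i + P.γ * P.mv x ξ i| ≤ |x i| + |P.γ * P.mv x ξ i| := abs_add_le _ _
      _ ≤ (1 - P.δ) + P.γ * P.U := by
          rw [abs_mul, abs_of_pos hP.hγ]
          exact add_le_add h1.le (mul_le_mul_of_nonneg_left h2 hP.hγ.le)
      _ ≤ 1 := by linarith [hP.hδ]
  · rw [P.mv_eq_zero x ξ hi, mul_zero, add_zero]; exact hx i

theorem dev_step (x ξ : V → ℝ) (j : J) :
    dev P.c P.z j (P.step x ξ) = dev P.c P.z j x + P.γ * ∑ i, P.c j i * P.mv x ξ i := by
  unfold dev step
  rw [Finset.mul_sum, ← Finset.sum_add_distrib]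
  exact Finset.sum_congr rfl fun i _ => by ring

theorem dev_step_tight {x ξ : V → ℝ} {j : J} (hj : P.L ≤ |dev P.c P.z j x|) :
    dev P.c P.z j (P.step x ξ) = dev P.c P.z j x := by
  rw [dev_step hP]
  have : ∑ i, P.c j i * P.mv x ξ i = 0 := by
    refine Finset.sum_eq_zero fun i _ => ?_
    by_cases h : P.c j i = 0
    · rw [h, zero_mul]
    · rw [P.mv_eq_zero x ξ (fun hi => absurd ((mem_alive.1 hi).2 j h) (not_lt.2 hj)), mul_zero]
  rw [this, mul_zero, add_zero]

theorem abs_dev_step_le {x ξ : V → ℝ} (hξ : ∀ i, |ξ i| ≤ 1) {j : J}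
    (hj : |dev P.c P.z j x| ≤ P.L + 1) : |dev P.c P.z j (P.step x ξ)| ≤ P.L + 1 := by
  by_cases h : P.L ≤ |dev P.c P.z j x|
  · rw [dev_step_tight hP h]; exact hj
  · rw [dev_step hP]
    have h1 : |∑ i, P.c j i * P.mv x ξ i| ≤ P.D * P.U := by
      have := abs_CA_le (A := univ) hP.hc hP.hrow hP.hcol (U_pos hP).le (abs_mv_le hP (x := x) hξ) j
      rwa [CA_apply] at this
    calc _ ≤ |dev P.c P.z j x| + |P.γ * ∑ i, P.c j i * P.mv x ξ i| := abs_add_le _ _
      _ ≤ P.L + P.γ * (P.D * P.U) := by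
          rw [abs_mul, abs_of_pos hP.hγ]
          exact add_le_add (not_le.1 h).le (mul_le_mul_of_nonneg_left h1 hP.hγ.le)
      _ ≤ _ := by linarith [hP.hDU]

theorem alive_step_subset (x ξ : V → ℝ) : P.alive (P.step x ξ) ⊆ P.alive x := by
  intro i hi
  by_contra hcon
  rw [mem_alive] at hi
  obtain ⟨h1, h2⟩ := hi
  apply hcon
  rw [mem_alive]
  have h3 : P.step x ξ i = x i := by
    unfold step; rw [P.mv_eq_zero x ξ hcon, mul_zero, add_zero]
  rw [h3] at h1
  refine ⟨h1, fun j hj => ?_⟩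
  by_contra h4
  have h5 := h2 j hj
  rw [dev_step_tight hP (not_lt.1 h4)] at h5
  exact h4 h5

theorem abs_xs_le (ω : V → Fin P.N → Bool) (n : ℕ) : ∀ i, |P.xs ω n i| ≤ 1 := by
  induction n with
  | zero => exact hP.hz
  | succ n ih => exact abs_step_le hP ih fun i => (P.abs_bit ω n i).le

theorem abs_dev_xs_le (ω : V → Fin P.N → Bool) (n : ℕ) (j : J) :
    |dev P.c P.z j (P.xs ω n)| ≤ P.L + 1 := by
  induction n with
  | zero =>
    have : dev P.c P.z j (P.xs ω 0) = 0 := by simp [dev, xs]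
    rw [this, abs_zero]
    linarith [hP.hL]
  | succ n ih => exact abs_dev_step_le hP (fun i => (P.abs_bit ω n i).le) ih

omit hP in
theorem xs_setSlice (ω : V → Fin P.N → Bool) (n : Fin P.N) (ξ : V → Bool) :
    ∀ m : ℕ, m ≤ n → P.xs (setSlice n ω ξ) m = P.xs ω m := by
  intro m
  induction m with
  | zero => intro _; rfl
  | succ m ih =>
    intro hm
    have h1 : P.bit (setSlice n ω ξ) m = P.bit ω m := by
      funext p
      unfold bit
      by_cases h : m < P.N
      · simp only [dif_pos h]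
        congr 1
        unfold setSlice
        rw [Function.update_of_ne]
        intro h2
        have := congrArg Fin.val h2
        simp at this
        omega
      · simp only [dif_neg h]
    change P.step (P.xs (setSlice n ω ξ) m) (P.bit (setSlice n ω ξ) m) = P.step (P.xs ω m) (P.bit ω m)
    rw [ih (by omega), h1]

omit hP in
theorem xs_succ_setSlice (ω : V → Fin P.N → Bool) (n : Fin P.N) (ξ : V → Bool) :
    P.xs (setSlice n ω ξ) (n + 1) = P.step (P.xs ω n) (fun p => sgb (ξ p)) := by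
  have h1 : P.bit (setSlice n ω ξ) n = fun p => sgb (ξ p) := by
    funext p
    unfold bit
    simp [setSlice]
  change P.step (P.xs (setSlice n ω ξ) n) (P.bit (setSlice n ω ξ) n) = _
  rw [xs_setSlice ω n ξ n le_rfl, h1]

/-- exponential moments of the rows -/
theorem row_moment (θ : J → ℝ) (n : ℕ) (hn : n ≤ P.N) :
    avg (fun ω : V → Fin P.N → Bool => exp (∑ j, θ j * dev P.c P.z j (P.xs ω n)))
      ≤ exp (n * P.γ ^ 2 * (∑ j, θ j ^ 2) / 2) := by
  induction n with
  | zero =>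
    have : ∀ ω : V → Fin P.N → Bool, ∑ j, θ j * dev P.c P.z j (P.xs ω 0) = 0 := by
      intro ω
      refine Finset.sum_eq_zero fun j _ => ?_
      simp [dev, xs]
    simp only [this, exp_zero, avg_const]
    simp
  | succ n ih =>
    have ih := ih (by omega)
    set n' : Fin P.N := ⟨n, hn⟩ with hn'
    rw [avg_slice n']
    have hpt : ∀ ω : V → Fin P.N → Bool,
        avg (fun ξ : V → Bool => exp (∑ j, θ j * dev P.c P.z j (P.xs (setSlice n' ω ξ) (n + 1))))
        ≤ exp (∑ j, θ j * dev P.c P.z j (P.xs ω n)) * exp (P.γ ^ 2 * (∑ j, θ j ^ 2) / 2) := by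
      intro ω
      set x := P.xs ω n with hx
      set A := P.alive x with hA
      set a : V → ℝ := fun p => P.γ * (MM P.c P.D A ^ P.d) (CT P.c A θ) p with ha
      have h1 : ∀ ξ : V → Bool, ∑ j, θ j * dev P.c P.z j (P.xs (setSlice n' ω ξ) (n + 1))
          = ∑ j, θ j * dev P.c P.z j x + ∑ p, a p * sgb (ξ p) := by
        intro ξ
        have h2 : P.xs (setSlice n' ω ξ) (n + 1) = P.step x (fun p => sgb (ξ p)) :=
          xs_succ_setSlice ω n' ξ
        rw [h2]
        simp only [dev_step hP, mul_add, Finset.sum_add_distrib]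
        congr 1
        have h3 : ∑ j, θ j * (P.γ * ∑ i, P.c j i * P.mv x (fun p => sgb (ξ p)) i)
            = P.γ * ∑ i, CT P.c A θ i * P.mv x (fun p => sgb (ξ p)) i := by
          rw [← adj, Finset.mul_sum]
          refine Finset.sum_congr rfl fun j _ => ?_
          have : CA P.c A (P.mv x fun p => sgb (ξ p)) j
              = ∑ i, P.c j i * P.mv x (fun p => sgb (ξ p)) i := by
            rw [CA_apply]
            apply Finset.sum_subset (Finset.subset_univ A)
            intro i _ hi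
            rw [P.mv_eq_zero x _ hi, mul_zero]
          rw [this]; ring
        rw [h3]
        unfold mv
        rw [← hA, MMpow_symm, Finset.mul_sum]
        refine Finset.sum_congr rfl fun p _ => ?_
        simp only [ha]; ring
      simp only [h1, exp_add]
      rw [avg_mul_left]
      apply mul_le_mul_of_nonneg_left _ (exp_pos _).le
      refine (avg_exp_linear a).trans ?_
      apply exp_le_exp.2
      apply div_le_div_of_nonneg_right _ (by norm_num)
      have h4 : ∑ p, a p ^ 2 = P.γ ^ 2 * ∑ p, (MM P.c P.D A ^ P.d) (CT P.c A θ) p ^ 2 := by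
        rw [Finset.mul_sum]
        exact Finset.sum_congr rfl fun p _ => by simp only [ha]; ring
      rw [h4]
      exact mul_le_mul_of_nonneg_left (row_var hP.hc hP.hrow P.d hP.hd1 θ) (sq_nonneg _)
    calc _ ≤ avg (fun ω : V → Fin P.N → Bool => exp (∑ j, θ j * dev P.c P.z j (P.xs ω n))
          * exp (P.γ ^ 2 * (∑ j, θ j ^ 2) / 2)) := avg_mono hpt
      _ = avg (fun ω : V → Fin P.N → Bool => exp (∑ j, θ j * dev P.c P.z j (P.xs ω n)))
          * exp (P.γ ^ 2 * (∑ j, θ j ^ 2) / 2) := avg_mul_right _ _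
      _ ≤ exp (n * P.γ ^ 2 * (∑ j, θ j ^ 2) / 2) * exp (P.γ ^ 2 * (∑ j, θ j ^ 2) / 2) :=
          mul_le_mul_of_nonneg_right ih (exp_pos _).le
      _ = _ := by
          rw [← exp_add]; congr 1; push_cast; ring

end Par

end Pool.Agent.Helper26.Loc
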