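import Pool.Agent.Helper26.Loc.Proc

namespace Pool.Agent.Helper26.Loc

open Finset Real
open Pool.Agent.Helper26.Gsw (dev dev_line)

namespace Par

variable {V J : Type*} [Fintype V] [DecidableEq V] [Fintype J]
variable {P : Par V J} (hP : P.Ok)
include hP

theorem sum_abs_ee_le (A : Finset V) (i : V) :
    ∑ p, |(MM P.c P.D A ^ P.d) (ee p) i| ≤ P.U :=
  sum_abs_le hP.hc hP.hrow hP.hcol P.d i

theorem sum_abs_ee_le' (A : Finset V) (p : V) :
    ∑ i, |(MM P.c P.D A ^ P.d) (ee p) i| ≤ P.U := by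
  have := sum_abs_ee_le hP A p
  simpa only [MMpow_ee_symm P.d p] using this

/-- second order terms -/
theorem quad_bound {A I : Finset V} (hI : I ⊆ A) {x : V → ℝ} (hx : ∀ i, |x i| ≤ 1)
    (w : V → V → ℝ) (hw : ∀ p i, w p i = (MM P.c P.D A ^ P.d) (ee p) i) (B : V → ℝ)
    (hB : ∀ q, B q = |∑ i ∈ I, x i * w q i| + P.γ * ∑ p, |∑ i ∈ I, w p i * w q i|) :
    ∑ q, (-(1 / 1024) * P.γ ^ 2 * ∑ i ∈ I, w q i ^ 2 + 2 * (1 / 1024) ^ 2 * P.γ ^ 2 * B q ^ 2)
      ≤ -(P.γ ^ 2 * #I / 2 ^ 17) := by
  have hγ := hP.hγ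
  have hU0 : 0 < P.U := U_pos hP
  -- first order term
  have h1 : (#I : ℝ) / 64 ≤ ∑ q, ∑ i ∈ I, w q i ^ 2 := by
    rw [Finset.sum_comm]
    calc (#I : ℝ) / 64 = ∑ _i ∈ I, (1 : ℝ) / 64 := by
          rw [Finset.sum_const, nsmul_eq_mul]; ring
      _ ≤ _ := by
          refine Finset.sum_le_sum fun i hi => ?_
          have h2 := diag_lower (c := P.c) (D := P.D) (A := A) hP.hc hP.hD1 (hI hi) P.r hP.hd2
          refine h2.trans (le_of_eq ?_)
          refine Finset.sum_congr rfl fun p _ => ?_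
          rw [hw p i, MMpow_ee_symm P.d p i]
          rfl
  -- first part of B
  have h2 : ∑ q, (∑ i ∈ I, x i * w q i) ^ 2 ≤ #I := by
    set y : V → ℝ := fun i => if i ∈ I then x i else 0 with hy
    have h3 : ∀ q, ∑ i ∈ I, x i * w q i = (MM P.c P.D A ^ P.d) y q := by
      intro q
      have h4 := MMpow_symm (c := P.c) (D := P.D) (A := A) P.d (ee q) y
      rw [sum_ee_mul] at h4
      rw [h4]
      have h5 : ∑ i, (MM P.c P.D A ^ P.d) (ee q) i * y i
          = ∑ i ∈ I, (MM P.c P.D A ^ P.d) (ee q) i * x i := by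
        simp only [hy]
        exact sum_RA _ _
      rw [h5]
      exact Finset.sum_congr rfl fun i _ => by rw [hw]; ring
    simp only [h3]
    refine (MMpow_sq_le hP.hc hP.hrow P.d y).trans ?_
    calc ∑ i, y i ^ 2 = ∑ i ∈ I, x i ^ 2 := by
          simp only [hy]
          rw [← Finset.sum_filter_add_sum_filter_not univ (fun i => i ∈ I)]
          have h6 : ∑ i ∈ univ.filter (fun i => ¬ i ∈ I), (if i ∈ I then x i else 0) ^ 2 = 0 := by
            refine Finset.sum_eq_zero fun i hi => ?_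
            rw [if_neg (Finset.mem_filter.1 hi).2]; ring
          rw [h6, add_zero]
          have h7 : univ.filter (fun i => i ∈ I) = I := by ext; simp
          rw [h7]
          exact Finset.sum_congr rfl fun i hi => by rw [if_pos hi]
      _ ≤ ∑ _i ∈ I, (1 : ℝ) := by
          refine Finset.sum_le_sum fun i _ => ?_
          have := (sq_le_one_iff_abs_le_one (x i)).2 (hx i)
          exact this
      _ = #I := by simp
  -- second part of B
  have h3 : ∑ q, (∑ p, |∑ i ∈ I, w p i * w q i|) ^ 2 ≤ P.U ^ 4 * #I := by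
    have h4 : ∀ q, ∑ p, |∑ i ∈ I, w p i * w q i| ≤ P.U * ∑ i ∈ I, |w q i| := by
      intro q
      calc ∑ p, |∑ i ∈ I, w p i * w q i| ≤ ∑ p, ∑ i ∈ I, |w p i| * |w q i| := by
            refine Finset.sum_le_sum fun p _ => ?_
            refine (Finset.abs_sum_le_sum_abs _ _).trans (le_of_eq ?_)
            exact Finset.sum_congr rfl fun i _ => abs_mul _ _
        _ = ∑ i ∈ I, (∑ p, |w p i|) * |w q i| := by
            rw [Finset.sum_comm]
            exact Finset.sum_congr rfl fun i _ => by rw [Finset.sum_mul]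
        _ ≤ ∑ i ∈ I, P.U * |w q i| := by
            refine Finset.sum_le_sum fun i _ => ?_
            apply mul_le_mul_of_nonneg_right _ (abs_nonneg _)
            have := sum_abs_ee_le hP A i
            simpa only [hw] using this
        _ = _ := by rw [Finset.mul_sum]
    have h5 : ∀ q, ∑ i ∈ I, |w q i| ≤ P.U := by
      intro q
      calc ∑ i ∈ I, |w q i| ≤ ∑ i, |w q i| :=
            Finset.sum_le_sum_of_subset_of_nonneg (Finset.subset_univ _) fun i _ _ => abs_nonneg _
        _ ≤ P.U := by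
            have := sum_abs_ee_le' hP A q
            simpa only [hw] using this
    calc ∑ q, (∑ p, |∑ i ∈ I, w p i * w q i|) ^ 2
        ≤ ∑ q, P.U ^ 3 * ∑ i ∈ I, |w q i| := by
          refine Finset.sum_le_sum fun q _ => ?_
          have h6 : 0 ≤ ∑ p, |∑ i ∈ I, w p i * w q i| := Finset.sum_nonneg fun p _ => abs_nonneg _
          have h7 : 0 ≤ ∑ i ∈ I, |w q i| := Finset.sum_nonneg fun p _ => abs_nonneg _
          calc (∑ p, |∑ i ∈ I, w p i * w q i|) ^ 2 ≤ (P.U * ∑ i ∈ I, |w q i|) ^ 2 :=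
                pow_le_pow_left₀ h6 (h4 q) 2
            _ = P.U ^ 2 * (∑ i ∈ I, |w q i|) * ∑ i ∈ I, |w q i| := by ring
            _ ≤ P.U ^ 2 * P.U * ∑ i ∈ I, |w q i| := by
                apply mul_le_mul_of_nonneg_right _ h7
                exact mul_le_mul_of_nonneg_left (h5 q) (by positivity)
            _ = _ := by ring
      _ = P.U ^ 3 * ∑ i ∈ I, ∑ q, |w q i| := by rw [← Finset.mul_sum, Finset.sum_comm]
      _ ≤ P.U ^ 3 * ∑ _i ∈ I, P.U := by
          apply mul_le_mul_of_nonneg_left _ (by positivity)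
          refine Finset.sum_le_sum fun i _ => ?_
          have := sum_abs_ee_le hP A i
          simpa only [hw] using this
      _ = P.U ^ 4 * #I := by rw [Finset.sum_const, nsmul_eq_mul]; ring
  have h4 : ∑ q, B q ^ 2 ≤ 4 * #I := by
    have h5 : ∀ q, B q ^ 2 ≤ 2 * (∑ i ∈ I, x i * w q i) ^ 2
        + 2 * P.γ ^ 2 * (∑ p, |∑ i ∈ I, w p i * w q i|) ^ 2 := by
      intro q
      rw [hB q]
      have h6 : |∑ i ∈ I, x i * w q i| ^ 2 = (∑ i ∈ I, x i * w q i) ^ 2 := sq_abs _
      nlinarith [sq_nonneg (|∑ i ∈ I, x i * w q i| - P.γ * ∑ p, |∑ i ∈ I, w p i * w q i|)]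
    calc ∑ q, B q ^ 2 ≤ ∑ q, (2 * (∑ i ∈ I, x i * w q i) ^ 2
        + 2 * P.γ ^ 2 * (∑ p, |∑ i ∈ I, w p i * w q i|) ^ 2) :=
          Finset.sum_le_sum fun q _ => h5 q
      _ = 2 * ∑ q, (∑ i ∈ I, x i * w q i) ^ 2
          + 2 * P.γ ^ 2 * ∑ q, (∑ p, |∑ i ∈ I, w p i * w q i|) ^ 2 := by
          rw [Finset.sum_add_distrib, ← Finset.mul_sum, ← Finset.mul_sum]
      _ ≤ 2 * #I + 2 * P.γ ^ 2 * (P.U ^ 4 * #I) := by
          apply add_le_add
          · exact mul_le_mul_of_nonneg_left h2 (by norm_num)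
          · exact mul_le_mul_of_nonneg_left h3 (by positivity)
      _ = 2 * #I + 2 * (P.γ * P.U ^ 2) ^ 2 * #I := by ring
      _ ≤ 2 * #I + 2 * 1 * #I := by
          apply add_le_add le_rfl
          apply mul_le_mul_of_nonneg_right _ (by positivity)
          apply mul_le_mul_of_nonneg_left _ (by norm_num)
          exact pow_le_one₀ (by positivity) hP.hU
      _ = 4 * #I := by ring
  rw [Finset.sum_add_distrib, ← Finset.mul_sum, ← Finset.mul_sum]
  have h5 : 0 < P.γ ^ 2 := by positivity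
  nlinarith [mul_le_mul_of_nonneg_left h1 h5.le, mul_le_mul_of_nonneg_left h4 h5.le]

omit hP in
/-- survival functional -/
noncomputable def psi (P : Par V J) (I : Finset V) (n : ℕ) (ω : V → Fin P.N → Bool) : ℝ :=
  if I ⊆ P.alive (P.xs ω n) then exp (-(1 / 1024) * ∑ i ∈ I, P.xs ω n i ^ 2) else 0

theorem psi_avg (I : Finset V) (n : ℕ) (hn : n ≤ P.N) :
    avg (psi P I n) ≤ exp (-(n * P.γ ^ 2 * #I / 2 ^ 17)) := by
  induction n with
  | zero =>
    have h1 : ∀ ω, psi P I 0 ω ≤ 1 := by
      intro ω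
      unfold psi
      split_ifs
      · apply exp_le_one_iff.2
        have : 0 ≤ ∑ i ∈ I, P.xs ω 0 i ^ 2 := Finset.sum_nonneg fun i _ => sq_nonneg _
        linarith
      · exact zero_le_one
    refine (avg_mono h1).trans ?_
    rw [avg_const]
    simp
  | succ n ih =>
    have ih := ih (by omega)
    set n' : Fin P.N := ⟨n, hn⟩ with hn'
    rw [avg_slice n']
    have hpt : ∀ ω : V → Fin P.N → Bool,
        avg (fun ξ : V → Bool => psi P I (n + 1) (setSlice n' ω ξ))
        ≤ psi P I n ω * exp (-(P.γ ^ 2 * #I / 2 ^ 17)) := by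
      intro ω
      set x := P.xs ω n with hx
      set A := P.alive x with hA
      have hstep : ∀ ξ : V → Bool, P.xs (setSlice n' ω ξ) (n + 1) = P.step x (fun p => sgb (ξ p)) :=
        fun ξ => xs_succ_setSlice ω n' ξ
      by_cases hI : I ⊆ A
      · set w : V → V → ℝ := fun p i => (MM P.c P.D A ^ P.d) (ee p) i with hw
        have hmv : ∀ (ξ : V → Bool) (i : V),
            P.step x (fun p => sgb (ξ p)) i = x i + P.γ * ∑ p, sgb (ξ p) * w p i := by
          intro ξ i
          unfold step mv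
          congr 2
          have h2 : (fun p => sgb (ξ p)) = ∑ p, sgb (ξ p) • ee p := by
            funext q
            rw [Finset.sum_apply]
            simp [ee, Pi.single_apply]
          rw [h2, map_sum, Finset.sum_apply]
          refine Finset.sum_congr rfl fun p _ => ?_
          rw [map_smul, Pi.smul_apply, smul_eq_mul]
        have hle : ∀ ξ : V → Bool, psi P I (n + 1) (setSlice n' ω ξ)
            ≤ exp (-(1 / 1024) * ∑ i ∈ I, (x i + P.γ * ∑ p, sgb (ξ p) * w p i) ^ 2) := by
          intro ξ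
          unfold psi
          split_ifs
          · apply le_of_eq
            rw [hstep]
            simp only [hmv]
          · exact (exp_pos _).le
        have hpsi : psi P I n ω = exp (-(1 / 1024) * ∑ i ∈ I, x i ^ 2) := by
          unfold psi
          rw [if_pos hI]
        rw [hpsi]
        refine (avg_mono hle).trans ?_
        refine (avg_exp_quad I x w (1 / 1024) P.γ hP.hγ.le
          (fun q => |∑ i ∈ I, x i * w q i| + P.γ * ∑ p, |∑ i ∈ I, w p i * w q i|)
          (fun q => le_rfl)).trans ?_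
        apply mul_le_mul_of_nonneg_left _ (exp_pos _).le
        apply exp_le_exp.2
        exact quad_bound hP hI (abs_xs_le hP ω n) w (fun p i => rfl) _ (fun q => rfl)
      · have h1 : ∀ ξ : V → Bool, psi P I (n + 1) (setSlice n' ω ξ) = 0 := by
          intro ξ
          unfold psi
          rw [if_neg]
          rw [hstep]
          exact fun h => hI (h.trans (alive_step_subset hP x _))
        simp only [h1, avg_const]
        apply mul_nonneg _ (exp_pos _).le
        unfold psi
        split_ifs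
        · exact (exp_pos _).le
        · exact le_rfl
    calc _ ≤ avg (fun ω : V → Fin P.N → Bool => psi P I n ω * exp (-(P.γ ^ 2 * #I / 2 ^ 17))) :=
          avg_mono hpt
      _ = avg (psi P I n) * exp (-(P.γ ^ 2 * #I / 2 ^ 17)) := avg_mul_right _ _
      _ ≤ exp (-(n * P.γ ^ 2 * #I / 2 ^ 17)) * exp (-(P.γ ^ 2 * #I / 2 ^ 17)) :=
          mul_le_mul_of_nonneg_right ih (exp_pos _).le
      _ = _ := by
          rw [← exp_add]; congr 1; push_cast; ring

/-- indicator of the event that all members of `I` are alive at the end -/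
theorem surv_prob (I : Finset V) :
    avg (fun ω : V → Fin P.N → Bool => ind (I ⊆ P.alive (P.xs ω P.N)))
      ≤ exp (1 / 1024 - P.N * P.γ ^ 2 / 2 ^ 17) ^ #I := by
  have h1 : ∀ ω : V → Fin P.N → Bool, ind (I ⊆ P.alive (P.xs ω P.N))
      ≤ exp (#I / 1024) * psi P I P.N ω := by
    intro ω
    unfold psi
    by_cases h : I ⊆ P.alive (P.xs ω P.N)
    · rw [ind_true h, if_pos h, ← exp_add]
      apply one_le_exp
      have h2 : ∑ i ∈ I, P.xs ω P.N i ^ 2 ≤ #I := by
        calc ∑ i ∈ I, P.xs ω P.N i ^ 2 ≤ ∑ _i ∈ I, (1 : ℝ) :=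
              Finset.sum_le_sum fun i _ => (sq_le_one_iff_abs_le_one _).2 (abs_xs_le hP ω P.N i)
          _ = #I := by simp
      linarith
    · rw [ind_false h, if_neg h, mul_zero]
  refine (avg_mono h1).trans ?_
  rw [avg_mul_left]
  refine (mul_le_mul_of_nonneg_left (psi_avg hP I P.N le_rfl) (exp_pos _).le).trans (le_of_eq ?_)
  rw [← exp_add, ← exp_nat_mul]
  congr 1
  ring

end Par

end Pool.Agent.Helper26.Loc
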